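import Pool.Agent.Helper46.Peel.Cert

/-!
Arithmetic consequences of the certificates.
-/
namespace Pool.Agent.Helper46.Peel

open Finset Classical

variable {V : Type*} [Fintype V] {G : SimpleGraph V} {L : Finset V} {c : ℕ}

lemma fN_le (M q r : ℕ) : fN M q r ≤ M * (q * q) + 2 * q * r + r := by
  unfold fN
  have h1 : min r M ≤ r := min_le_left _ _
  have h2 : min r (M + 1) - 1 ≤ r := (Nat.sub_le _ _).trans (min_le_left _ _)
  have h3 : q * (min r M + (min r (M + 1) - 1)) ≤ q * (r + r) := Nat.mul_le_mul_left q (by omega)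
  nlinarith

lemma fN_le' (M q r : ℕ) (hr : 1 ≤ r) : fN M q r + q + 1 ≤ M * (q * q) + 2 * q * r + r := by
  unfold fN
  have h1 : min r M ≤ r := min_le_left _ _
  have h2 : min r (M + 1) - 1 ≤ r - 1 := Nat.sub_le_sub_right (min_le_left _ _) 1
  have h3 : q * (min r M + (min r (M + 1) - 1)) ≤ q * (r + (r - 1)) :=
    Nat.mul_le_mul_left q (by omega)
  obtain ⟨s, rfl⟩ := Nat.exists_eq_add_of_le hr
  have h4 : 1 + s - 1 = s := by omega
  rw [h4] at h2 h3
  nlinarith

lemma sz_le (q r t : ℕ) : sz q r t ≤ q + 1 := by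
  unfold sz; split_ifs <;> omega

/-- bound for the cost of the half-integral certificate -/
lemma cost2_le (N q r : ℕ) (hN : 2 ≤ N) (hr : r < 2 * N) :
    (N : ℤ) * cost2 (N - 1) q ((r + 1) / 2) (r / 2) ≤
      ((2 * N * q + r : ℕ) : ℤ) ^ 2 - (2 * N * q + r : ℕ) * N + N ^ 2 + (2 * N * q + r : ℕ) := by
  obtain ⟨M, rfl⟩ : ∃ M, N = M + 1 := ⟨N - 1, by omega⟩
  rw [Nat.add_sub_cancel]
  have hM : 1 ≤ M := by omega
  have hqq : ((q * (q - 1) : ℕ) : ℤ) = q * q - q := by
    rcases q with _ | q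
    · simp
    · push_cast [Nat.add_sub_cancel]; ring
  have hcost : ((cost2 M q ((r + 1) / 2) (r / 2) : ℕ) : ℤ) ≤
      4 * ((M : ℤ) + 1) * q ^ 2 - 2 * (M + 1) * q + 4 * q * r + r + 2 * q := by
    rcases Nat.lt_or_ge r 2 with h2 | h2
    · interval_cases r
      · unfold cost2 fN sz
        have d1 : (0 + 1) / 2 = 0 := by norm_num
        have e0 : min (M + 1) 0 = 0 := by omega
        rw [d1, e0]
        push_cast [hqq]
        simp
        nlinarith
      · unfold cost2 fN sz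
        have : (1 + 1) / 2 = 1 := by norm_num
        have d2 : 1 / 2 = 0 := by norm_num
        have e0 : min (M + 1) 0 = 0 := by omega
        rw [this, d2, e0]
        have e1 : min 1 M = 1 := by omega
        have e2 : min (M + 1) 1 = 1 := by omega
        have e3 : min 1 (M + 1) = 1 := by omega
        rw [e1, e2, e3]
        push_cast [hqq]
        simp
        nlinarith
    · have f1 := fN_le' M q ((r + 1) / 2) (by omega)
      have f2 := fN_le' M q (r / 2) (by omega)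
      have g1 : sz q ((r + 1) / 2) 0 * sz q (r / 2) 1 ≤ (q + 1) * (q + 1) :=
        Nat.mul_le_mul (sz_le _ _ _) (sz_le _ _ _)
      have g2 : sz q (r / 2) 0 * sz q ((r + 1) / 2) 1 ≤ (q + 1) * (q + 1) :=
        Nat.mul_le_mul (sz_le _ _ _) (sz_le _ _ _)
      have m1 : min (M + 1) ((r + 1) / 2) = (r + 1) / 2 := by omega
      have m2 : min (M + 1) (r / 2) = r / 2 := by omega
      have hsum : (r + 1) / 2 + r / 2 = r := by omega
      unfold cost2
      rw [m1, m2]
      set rL := (r + 1) / 2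
      set rR := r / 2
      have hsum' : (rL : ℤ) + rR = r := by exact_mod_cast hsum
      zify at f1 f2 g1 g2
      push_cast [hqq]
      have hr' : (r : ℤ) = rL + rR := hsum'.symm
      rw [hr']
      nlinarith
  have hn : ((2 * (M + 1) * q + r : ℕ) : ℤ) = 2 * (M + 1) * q + r := by push_cast; ring
  rw [hn]
  push_cast
  have h1 : ((M : ℤ) + 1) * (cost2 M q ((r + 1) / 2) (r / 2) : ℕ) ≤
      (M + 1) * (4 * ((M : ℤ) + 1) * q ^ 2 - 2 * (M + 1) * q + 4 * q * r + r + 2 * q) :=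
    mul_le_mul_of_nonneg_left hcost (by positivity)
  have h2 : (0 : ℤ) ≤ ((M : ℤ) + 1 - r) ^ 2 + r := by positivity
  nlinarith

variable {n k : ℕ}

/-- main inequality from half-integral certificates -/
lemma main_two (h : Geo G L c) (hn : Fintype.card V = n) (he : 2 * (n * k) + 2 ≤ ordE G)
    (N : ℕ) (hN : 2 ≤ N) :
    2 * (N : ℤ) * n * k + 2 * N + n * N ≤ N ^ 2 * c + n ^ 2 + N ^ 2 + n := by
  have hpos : 0 < 2 * N := by omega
  have hr : n % (2 * N) < 2 * N := Nat.mod_lt _ hpos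
  have hdm : 2 * N * (n / (2 * N)) + n % (2 * N) = n := Nat.div_add_mod n (2 * N)
  have key := cert_two h (N - 1) (n / (2 * N)) (n % (2 * N)) (by omega)
    (by rw [hn, Nat.sub_add_cancel (by omega)]; exact hdm.symm)
    (by rw [Nat.sub_add_cancel (by omega)]; exact hr)
  rw [Nat.sub_add_cancel (by omega : 1 ≤ N)] at key
  have hc := cost2_le N (n / (2 * N)) (n % (2 * N)) hN hr
  rw [hdm] at hc
  have h1 : ((2 * (n * k) + 2 : ℕ) : ℤ) ≤ N * c +
      (cost2 (N - 1) (n / (2 * N)) ((n % (2 * N) + 1) / 2) (n % (2 * N) / 2) : ℕ) := by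
    exact_mod_cast he.trans key
  have h2 := mul_le_mul_of_nonneg_left h1 (by positivity : (0 : ℤ) ≤ (N : ℤ))
  push_cast at h2
  nlinarith

/-- main inequality from one halving line -/
lemma main_one (h : Geo G L c) (hn : Fintype.card V = n) (he : 2 * (n * k) + 2 ≤ ordE G) :
    4 * (n : ℤ) * k + 4 ≤ 4 * c + (n - 1) ^ 2 := by
  have key := cert_one h 0 (n / 2) (n % 2) (by rw [hn]; omega) (by omega)
  have h1 : ((2 * (n * k) + 2 : ℕ) : ℤ) ≤ 2 * c +
      (cost1 0 (n / 2) ((n % 2 + 1) / 2) (n % 2 / 2) : ℕ) := by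
    have := he.trans key
    rw [show 2 * (0 + 1) * c = 2 * c by ring] at this
    exact_mod_cast this
  have hcost : 2 * ((cost1 0 (n / 2) ((n % 2 + 1) / 2) (n % 2 / 2) : ℕ) : ℤ) ≤ ((n : ℤ) - 1) ^ 2 := by
    rcases Nat.even_or_odd' n with ⟨q, rfl | rfl⟩
    · have e1 : 2 * q / 2 = q := by omega
      have e2 : 2 * q % 2 = 0 := by omega
      rw [e1, e2]
      unfold cost1
      have hqq : ((q * (q - 1) : ℕ) : ℤ) = q * q - q := by
        rcases q with _ | q
        · simp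
        · push_cast [Nat.add_sub_cancel]; ring
      push_cast [hqq]
      simp
      nlinarith
    · have e1 : (2 * q + 1) / 2 = q := by omega
      have e2 : (2 * q + 1) % 2 = 1 := by omega
      rw [e1, e2]
      unfold cost1
      have hqq : ((q * (q - 1) : ℕ) : ℤ) = q * q - q := by
        rcases q with _ | q
        · simp
        · push_cast [Nat.add_sub_cancel]; ring
      push_cast [hqq]
      simp
      nlinarith
  push_cast at h1
  nlinarith

lemma cost3_le (p q r : ℕ) (hr : r < p) :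
    16 * (p : ℤ) * cost3 (p - 1) q r ≤ 4 * ((p * q + r : ℕ) : ℤ) ^ 2 + p ^ 2 := by
  have hp : p - 1 + 1 - r = p - r := by omega
  unfold cost3
  rw [hp]
  have h1 : 4 * (q ^ 2 / 4) ≤ q ^ 2 := Nat.mul_div_le _ _
  have h2 : 4 * ((q + 1) ^ 2 / 4) ≤ (q + 1) ^ 2 := Nat.mul_div_le _ _
  have h3 : 4 * ((p - r) * (q ^ 2 / 4) + r * ((q + 1) ^ 2 / 4)) ≤ (p - r) * q ^ 2 + r * (q + 1) ^ 2 := by
    calc _ = (p - r) * (4 * (q ^ 2 / 4)) + r * (4 * ((q + 1) ^ 2 / 4)) := by ring
      _ ≤ _ := Nat.add_le_add (Nat.mul_le_mul_left _ h1) (Nat.mul_le_mul_left _ h2)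
  have h4 : (4 : ℤ) * (((p - r) * (q ^ 2 / 4) + r * ((q + 1) ^ 2 / 4) : ℕ) : ℤ) ≤
      ((p : ℤ) - r) * q ^ 2 + r * (q + 1) ^ 2 := by
    have : ((p - r : ℕ) : ℤ) = p - r := by push_cast [Nat.cast_sub hr.le]; ring
    rw [← this]
    exact_mod_cast h3
  have h5 := mul_le_mul_of_nonneg_left h4 (by positivity : (0 : ℤ) ≤ 4 * (p : ℤ))
  have h6 : (0 : ℤ) ≤ ((p : ℤ) - 2 * r) ^ 2 := sq_nonneg _
  push_cast at h5 ⊢
  nlinarith

/-- main inequality from rotation certificates -/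
lemma main_rot (h : Geo G L c) (hn : Fintype.card V = n) (he : 2 * (n * k) + 2 ≤ ordE G)
    (p : ℕ) (hp : 1 ≤ p) :
    16 * (p : ℤ) * (p - 1) * (n * k + 1) + 8 * p * (p - 1) * n ≤
      16 * p ^ 2 * c + 4 * (p - 1) ^ 2 * n ^ 2 + 17 * p ^ 2 := by
  have hr : n % p < p := Nat.mod_lt _ (by omega)
  have hdm : p * (n / p) + n % p = n := Nat.div_add_mod n p
  have key := cert_rot h (p - 1) (n / p) (n % p)
    (by rw [hn, Nat.sub_add_cancel hp]; exact hdm.symm)
    (by rw [Nat.sub_add_cancel hp]; exact hr)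
  rw [Nat.sub_add_cancel hp, hn] at key
  have hc := cost3_le p (n / p) (n % p) hr
  rw [hdm] at hc
  have hx1 : ex1 n ≤ 4 := by unfold ex1; split_ifs <;> omega
  have hx0 : ex0 n ≤ 4 := by unfold ex0; split_ifs <;> omega
  have k1 : 2 * ((p - 1) * (2 * (n * k) + 2)) + 2 * (n * (n - 1)) + 2 * p * n ≤
      4 * p * c + ((p - 1) * (n * n + 4) + (n * n + 4)) + 4 * cost3 (p - 1) (n / p) (n % p) := by
    have h1 : (p - 1) * (2 * (n * k) + 2) ≤ (p - 1) * ordE G := Nat.mul_le_mul_left _ he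
    have h2 : (p - 1) * (n * n + ex1 n) ≤ (p - 1) * (n * n + 4) := Nat.mul_le_mul_left _ (by omega)
    omega
  have hnn : ((n * (n - 1) : ℕ) : ℤ) = n * n - n := by
    rcases n with _ | n
    · simp
    · push_cast [Nat.add_sub_cancel]; ring
  have hpp : ((p - 1 : ℕ) : ℤ) = p - 1 := by push_cast [Nat.cast_sub hp]; ring
  have k2 : 2 * (((p : ℤ) - 1) * (2 * (n * k) + 2)) + 2 * ((n : ℤ) * n - n) + 2 * p * n ≤
      4 * p * c + (((p : ℤ) - 1) * (n * n + 4) + (n * n + 4)) +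
        4 * (cost3 (p - 1) (n / p) (n % p) : ℕ) := by
    rw [← hpp, ← hnn]
    exact_mod_cast k1
  have k3 := mul_le_mul_of_nonneg_left k2 (by positivity : (0 : ℤ) ≤ 4 * (p : ℤ))
  nlinarith

/-- sharp inequality, even number of parts -/
lemma sharp_one (h : Geo G L c) (hn : Fintype.card V = n) (he : 2 * (n * k) + 2 ≤ ordE G)
    (m : ℕ) (hm : 1 ≤ m) (hnk : n = 2 * m * k) : k ^ 2 + k + 1 ≤ c := by
  have key := cert_one h (m - 1) k 0
    (by rw [hn, Nat.sub_add_cancel hm, hnk]; ring) (by omega)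
  rw [Nat.sub_add_cancel hm] at key
  have hcost : cost1 (m - 1) k ((0 + 1) / 2) (0 / 2) = 2 * (m * (k * (k - 1))) := by
    unfold cost1
    rw [Nat.sub_add_cancel hm]
    norm_num
    ring
  rw [hcost] at key
  have hkk : ((k * (k - 1) : ℕ) : ℤ) = k * k - k := by
    rcases k with _ | k
    · simp
    · push_cast [Nat.add_sub_cancel]; ring
  have h1 : (2 : ℤ) * (n * k) + 2 ≤ 2 * m * c + 2 * (m * ((k : ℤ) * k - k)) := by
    rw [← hkk]
    exact_mod_cast he.trans key
  rw [hnk] at h1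
  push_cast at h1
  have hm' : (1 : ℤ) ≤ m := by exact_mod_cast hm
  have h2 : (m : ℤ) * (k ^ 2 + k) < m * c := by nlinarith
  have h3 : (k : ℤ) ^ 2 + k < c := lt_of_mul_lt_mul_left h2 (by positivity)
  have : k ^ 2 + k < c := by exact_mod_cast h3
  omega

/-- sharp inequality, even `k` -/
lemma sharp_two (h : Geo G L c) (hn : Fintype.card V = n) (he : 2 * (n * k) + 2 ≤ ordE G)
    (N q : ℕ) (hN : 2 ≤ N) (hk : k = 2 * q) (hnk : n = N * k) : k ^ 2 + k + 1 ≤ c := by
  have key := cert_two h (N - 1) q 0 (by omega)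
    (by rw [hn, Nat.sub_add_cancel (by omega), hnk, hk]; ring) (by omega)
  rw [Nat.sub_add_cancel (by omega : 1 ≤ N)] at key
  have hqq : ((q * (q - 1) : ℕ) : ℤ) = q * q - q := by
    rcases q with _ | q
    · simp
    · push_cast [Nat.add_sub_cancel]; ring
  have hN1 : ((N - 1 : ℕ) : ℤ) = N - 1 := by push_cast [Nat.cast_sub (by omega : 1 ≤ N)]; ring
  have hcost : ((cost2 (N - 1) q ((0 + 1) / 2) (0 / 2) : ℕ) : ℤ) = 4 * N * q ^ 2 - 2 * N * q := by
    unfold cost2 fN sz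
    have d1 : (0 + 1) / 2 = 0 := by norm_num
    have e0 : min N 0 = 0 := by omega
    have e1 : min 0 (N - 1) = 0 := by omega
    rw [Nat.sub_add_cancel (by omega : 1 ≤ N), d1, e0, e1]
    push_cast [hqq, hN1]
    simp
    ring
  have h1 : (2 : ℤ) * (n * k) + 2 ≤ N * c + (4 * N * q ^ 2 - 2 * N * q) := by
    rw [← hcost]
    exact_mod_cast he.trans key
  rw [hnk, hk] at h1
  push_cast at h1
  have hm' : (2 : ℤ) ≤ N := by exact_mod_cast hN
  have h2 : (N : ℤ) * ((2 * q) ^ 2 + 2 * q) < N * c := by nlinarith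
  have h3 : (2 * (q : ℤ)) ^ 2 + 2 * q < c := lt_of_mul_lt_mul_left h2 (by positivity)
  have : (2 * q) ^ 2 + 2 * q < c := by exact_mod_cast h3
  rw [hk]
  omega

end Pool.Agent.Helper46.Peel
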