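import Pool.Agent.Helper46.Peel.Finite

/-!
The numerical conclusions.
-/
namespace Pool.Agent.Helper46.Peel

open Finset Classical

variable {V : Type*} [Fintype V] {G : SimpleGraph V} {L : Finset V} {c n k : ℕ}

lemma ordE_le (hn : Fintype.card V = n) : ordE G ≤ n * (n - 1) := by
  have : ((univ : Finset (V × V)).filter fun q => G.Adj q.1 q.2) ⊆ (univ : Finset V).offDiag := by
    rintro ⟨u, v⟩ h
    rw [mem_filter] at h
    simp only [mem_offDiag, mem_univ, true_and]
    exact h.2.ne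
  have h2 := card_le_card this
  rw [offDiag_card, card_univ, hn] at h2
  unfold ordE
  rw [Nat.mul_sub, mul_one]
  convert h2

lemma n_ge (hn : Fintype.card V = n) (he : 2 * (n * k) + 2 ≤ ordE G) : 2 * k + 2 ≤ n := by
  have h := he.trans (ordE_le hn)
  by_contra hcon
  push Not at hcon
  have h1 : n - 1 ≤ 2 * k := by omega
  have h2 : n * (n - 1) ≤ n * (2 * k) := Nat.mul_le_mul_left _ h1
  have h3 : n * (2 * k) = 2 * (n * k) := by ring
  omega

lemma exact_two (h : Geo G L c) (hn : Fintype.card V = n) (he : 2 * (n * k) + 2 ≤ ordE G)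
    (N : ℕ) (hN : 2 ≤ N) (hc : ((n : ℤ) - N * k) ^ 2 ≤ n * (N - 1) + N) : k ^ 2 ≤ c := by
  have key := main_two h hn he N hN
  have h1 : (2 : ℤ) ≤ N := by exact_mod_cast hN
  have h2 : (N : ℤ) ^ 2 * (k ^ 2 - 1) < N ^ 2 * c := by nlinarith
  have h3 : (k : ℤ) ^ 2 - 1 < c := lt_of_mul_lt_mul_left h2 (by positivity)
  have h4 : (k : ℤ) ^ 2 ≤ c := by linarith
  exact_mod_cast h4

lemma exact_rot (h : Geo G L c) (hn : Fintype.card V = n) (he : 2 * (n * k) + 2 ≤ ordE G)
    (p : ℕ) (hp : 2 ≤ p) (hc : (((p : ℤ) - 1) * n - 2 * p * k) ^ 2 ≤ 2 * p * (p - 1) * n) :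
    k ^ 2 ≤ c := by
  have key := main_rot h hn he p (by omega)
  have h1 : (2 : ℤ) ≤ p := by exact_mod_cast hp
  have h2 : 16 * (p : ℤ) ^ 2 * (k ^ 2 - 1) < 16 * p ^ 2 * c := by nlinarith
  have h3 : (k : ℤ) ^ 2 - 1 < c := lt_of_mul_lt_mul_left h2 (by positivity)
  have h4 : (k : ℤ) ^ 2 ≤ c := by linarith
  exact_mod_cast h4

lemma chk_sound (h : Geo G L c) (hn : Fintype.card V = n) (he : 2 * (n * k) + 2 ≤ ordE G)
    (hk : 1 ≤ k) (hchk : chk n k = true) : k ^ 2 ≤ c := by
  by_contra hcon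
  push Not at hcon
  have hck : c ≤ k * k - 1 := by
    have : k ^ 2 = k * k := sq k
    omega
  have rotcase : ∀ M, cR M n k = true → False := by
    intro M hM
    unfold cR at hM
    rw [Nat.blt_eq] at hM
    have key := cert_rot h M (n / (M + 1)) (n % (M + 1))
      (by rw [hn]; exact (Nat.div_add_mod n (M + 1)).symm) (Nat.mod_lt _ (by omega))
    rw [hn] at key
    unfold ex1 ex0 cost3 at key
    rw [sq, sq] at key
    have h1 : 2 * M * (2 * (n * k) + 2) ≤ 2 * (M * ordE G) := by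
      rw [mul_assoc]
      exact Nat.mul_le_mul_left _ (Nat.mul_le_mul_left _ he)
    have h2 : 4 * (M + 1) * c ≤ 4 * (M + 1) * (k * k - 1) := Nat.mul_le_mul_left _ hck
    omega
  unfold chk at hchk
  rw [Bool.or_eq_true, Bool.or_eq_true, Bool.or_eq_true] at hchk
  rcases hchk with ((hM | hM) | hM) | hM
  · exact rotcase 2 hM
  · unfold cO at hM
    rw [Nat.blt_eq] at hM
    have key := cert_one h 1 (n / 4) (n % 4) (by rw [hn]; omega) (by omega)
    have h2 : 4 * c ≤ 4 * (k * k - 1) := Nat.mul_le_mul_left _ hck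
    omega
  · exact rotcase 6 hM
  · unfold cT at hM
    rw [Nat.blt_eq] at hM
    have key := cert_two h 4 (n / 10) (n % 10) (by norm_num) (by rw [hn]; omega) (by omega)
    have h2 : 5 * c ≤ 5 * (k * k - 1) := Nat.mul_le_mul_left _ hck
    omega

/-- large `n` -/
lemma exact_large (h : Geo G L c) (hn : Fintype.card V = n) (he : 2 * (n * k) + 2 ≤ ordE G)
    (hk : 1 ≤ k) (h1 : k ^ 3 ≤ 2 * n ^ 2) (h2 : 3 * k ≤ n) : k ^ 2 ≤ c := by
  set N := (2 * n + k) / (2 * k) with hN
  have hpos : 0 < 2 * k := by omega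
  have e1 : N * (2 * k) ≤ 2 * n + k := Nat.div_mul_le_self _ _
  have e2 : 2 * n + k < (N + 1) * (2 * k) := by
    simpa using Nat.lt_mul_of_div_lt (Nat.lt_succ_self N) hpos
  have hN2 : 2 ≤ N := by
    by_contra hcon
    push Not at hcon
    have : (N + 1) * (2 * k) ≤ 2 * (2 * k) := Nat.mul_le_mul_right _ (by omega)
    omega
  apply exact_two h hn he N hN2
  zify at e1 e2 h1 h2 hk hN2
  have hb1 : 2 * ((n : ℤ) - N * k) ≤ k := by nlinarith
  have hb2 : -(k : ℤ) ≤ 2 * ((n : ℤ) - N * k) := by nlinarith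
  have hsq : 4 * ((n : ℤ) - N * k) ^ 2 ≤ k ^ 2 := by nlinarith
  -- `2 k N > 2 n - k`
  have hb3 : 2 * (n : ℤ) - k ≤ 2 * k * N := by nlinarith
  have hn0 : (0 : ℤ) ≤ n := by positivity
  have hb4 : (n : ℤ) * (2 * n - 3 * k) ≤ 2 * k * (n * (N - 1)) := by nlinarith
  have hb5 : (k : ℤ) ^ 3 ≤ 2 * (n * (2 * n - 3 * k)) := by nlinarith
  have hb6 : (k : ℤ) * k ^ 2 ≤ k * (4 * (n * (N - 1))) := by nlinarith
  have hk0 : (0 : ℤ) < k := by linarith
  have hb7 : (k : ℤ) ^ 2 ≤ 4 * (n * (N - 1)) := le_of_mul_le_mul_left hb6 hk0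
  nlinarith

/-- `n` close to `2k` -/
lemma exact_small (h : Geo G L c) (hn : Fintype.card V = n) (he : 2 * (n * k) + 2 ≤ ordE G)
    (hk : 1 ≤ k) (h1 : (n - 2 * k) ^ 4 ≤ 64 * k ^ 3) : k ^ 2 ≤ c := by
  have hn2 := n_ge hn he
  obtain ⟨s, hs⟩ : ∃ s, n = 2 * k + s := ⟨n - 2 * k, by omega⟩
  have hs2 : 2 ≤ s := by omega
  have hs' : n - 2 * k = s := by omega
  rw [hs'] at h1
  have hs3 : s ≤ 3 * k := by
    by_contra hcon
    push Not at hcon
    have h5 : (3 * k) ^ 4 ≤ s ^ 4 := Nat.pow_le_pow_left hcon.le 4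
    have h6 : k ^ 3 ≤ k ^ 4 := Nat.pow_le_pow_right hk (by norm_num)
    have h7 : (3 * k) ^ 4 = 81 * k ^ 4 := by ring
    have h8 : 0 < k ^ 3 := by positivity
    omega
  set f := (4 * k + s) / (2 * s) with hf
  have hpos : 0 < 2 * s := by omega
  have e1 : f * (2 * s) ≤ 4 * k + s := Nat.div_mul_le_self _ _
  have e2 : 4 * k + s < (f + 1) * (2 * s) := by
    simpa using Nat.lt_mul_of_div_lt (Nat.lt_succ_self f) hpos
  have hf1 : 1 ≤ f := by
    rcases Nat.eq_zero_or_pos f with h0 | h0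
    · rw [h0] at e2
      omega
    · exact h0
  apply exact_rot h hn he (f + 1) (by omega)
  rw [hs]
  zify at e1 e2 h1 hk hs2 hs3 hf1
  push_cast
  have hb1 : 2 * ((f : ℤ) * s - 2 * k) ≤ s := by nlinarith
  have hb2 : -(s : ℤ) ≤ 2 * ((f : ℤ) * s - 2 * k) := by nlinarith
  have hsq : 4 * ((f : ℤ) * s - 2 * k) ^ 2 ≤ s ^ 2 := by nlinarith
  have hf2 : 4 * (k : ℤ) - s ≤ 2 * s * f := by nlinarith
  have hf3 : 4 * (k : ℤ) + s ≤ 2 * s * (f + 1) := by nlinarith
  have hf4 : (4 * (k : ℤ) - s) * (4 * k + s) ≤ (2 * s * f) * (2 * s * (f + 1)) := by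
    apply mul_le_mul hf2 hf3 (by linarith) (by positivity)
  have hf5 : (s : ℤ) ^ 4 ≤ 2 * ((4 * (k : ℤ) - s) * (4 * k + s)) * (2 * k + s) := by
    have g1 : (0 : ℤ) ≤ k := by linarith
    have g2 : (0 : ℤ) ≤ s := by linarith
    have g3 : 0 ≤ 16 * (k : ℤ) ^ 2 - 2 * k * s - s ^ 2 := by nlinarith
    have g4 := mul_nonneg g2 g3
    nlinarith
  have hf6 : (s : ℤ) ^ 2 * s ^ 2 ≤ s ^ 2 * (8 * f * (f + 1) * (2 * k + s)) := by
    have g1 : (0 : ℤ) ≤ 2 * k + s := by linarith
    have g2 := mul_le_mul_of_nonneg_right hf4 g1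
    nlinarith
  have hs0 : (0 : ℤ) < s ^ 2 := by
    have : (0 : ℤ) < s := by linarith
    positivity
  have hf7 : (s : ℤ) ^ 2 ≤ 8 * f * (f + 1) * (2 * k + s) := le_of_mul_le_mul_left hf6 hs0
  have e : ((f : ℤ) + 1 - 1) * (2 * k + s) - 2 * (f + 1) * k = f * s - 2 * k := by ring
  rw [e]
  nlinarith

/-- small `k` -/
lemma exact_fin (h : Geo G L c) (hn : Fintype.card V = n) (he : 2 * (n * k) + 2 ≤ ordE G)
    (hk : 1 ≤ k) (hk50 : k ≤ 50) : k ^ 2 ≤ c := by
  have hn2 := n_ge hn he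
  by_cases hcase : k ^ 3 ≤ 2 * n ^ 2 ∧ 3 * k ≤ n
  · exact exact_large h hn he hk hcase.1 hcase.2
  rw [not_and_or, not_le, not_le] at hcase
  obtain ⟨i, hi⟩ : ∃ i, n = 2 * k + 2 + i := ⟨n - (2 * k + 2), by omega⟩
  have hi150 : i < 150 := by
    by_contra hcon
    push Not at hcon
    rcases hcase with hc | hc
    · have h1 : 2 * k + 152 ≤ n := by omega
      have h2 : (2 * k + 152) ^ 2 ≤ n ^ 2 := Nat.pow_le_pow_left h1 2
      have h3 : k ^ 3 ≤ 50 * k ^ 2 := by
        calc k ^ 3 = k * k ^ 2 := by ring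
          _ ≤ 50 * k ^ 2 := Nat.mul_le_mul_right _ hk50
      nlinarith
    · omega
  apply chk_sound h hn he hk
  have hall := chk_all
  rw [List.all_eq_true] at hall
  have hrow := hall k (List.mem_range.2 (by omega))
  unfold chkRow at hrow
  rw [List.all_eq_true] at hrow
  have hcell := hrow i (List.mem_range.2 hi150)
  rw [← hi] at hcell
  rw [Bool.or_eq_true, Bool.not_eq_true', Bool.or_eq_false_iff] at hcell
  rcases hcell with ⟨h1, h2⟩ | h3
  · exfalso
    rcases hcase with hc | hc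
    · have : Nat.blt (2 * (n * n)) (k * k * k) = true := by
        rw [Nat.blt_eq]
        calc 2 * (n * n) = 2 * n ^ 2 := by ring
          _ < k ^ 3 := hc
          _ = k * k * k := by ring
      rw [this] at h2
      exact Bool.noConfusion h2
    · have : Nat.blt n (3 * k) = true := by
        rw [Nat.blt_eq]; exact hc
      rw [this] at h1
      exact Bool.noConfusion h1
  · exact h3

/-- the ratio `48/49` -/
lemma ratio (h : Geo G L c) (hn : Fintype.card V = n) (he : 2 * (n * k) + 2 ≤ ordE G)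
    (hk : 1 ≤ k) : 48 * k ^ 2 ≤ 49 * c := by
  have hn2 := n_ge hn he
  rcases Nat.lt_or_ge k 2 with hk1 | hk2
  · have := exact_fin h hn he hk (by omega)
    have hk' : k = 1 := by omega
    subst hk'
    omega
  by_cases hA : 7 * n ≤ 16 * k + 7
  · have key := main_one h hn he
    zify at hA hn2 hk2 ⊢
    have h0 : (0 : ℤ) ≤ n - 1 - 2 * k := by linarith
    have h1 : 7 * ((n : ℤ) - 1 - 2 * k) ≤ 2 * k := by linarith
    have h2 : 49 * ((n : ℤ) - 1 - 2 * k) ^ 2 ≤ 4 * k ^ 2 := by nlinarith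
    nlinarith
  · by_cases hC : 18 * k ≤ 7 * n
    · -- half-integral certificates
      set N := (7 * n + (8 * k - 1)) / (8 * k) with hN
      have hpos : 0 < 8 * k := by omega
      have e1 : N * (8 * k) ≤ 7 * n + (8 * k - 1) := Nat.div_mul_le_self _ _
      have e2 : 7 * n + (8 * k - 1) < (N + 1) * (8 * k) := by
        simpa using Nat.lt_mul_of_div_lt (Nat.lt_succ_self N) hpos
      have e3 : 7 * n ≤ N * (8 * k) := by
        have : (N + 1) * (8 * k) = N * (8 * k) + 8 * k := by ring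
        omega
      have hN3 : 3 ≤ N := by
        by_contra hcon
        push Not at hcon
        have : N * (8 * k) ≤ 2 * (8 * k) := Nat.mul_le_mul_right _ (by omega)
        omega
      have e4 : 6 * (N * k) ≤ 7 * n := by
        rcases Nat.lt_or_ge N 4 with h4 | h4
        · have : N = 3 := by omega
          rw [this]; omega
        · have h5 : 4 * (2 * k) ≤ N * (2 * k) := Nat.mul_le_mul_right _ h4
          have h6 : N * (8 * k) = 6 * (N * k) + N * (2 * k) := by ring
          omega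
      have key := main_two h hn he N (by omega)
      zify at e3 e4 hk2 hN3 ⊢
      have g1 : 7 * ((N : ℤ) * k - n) ≤ N * k := by linarith
      have g2 : -((N : ℤ) * k) ≤ 7 * ((N : ℤ) * k - n) := by linarith
      have g3 : 49 * ((N : ℤ) * k - n) ^ 2 ≤ (N * k) ^ 2 := by nlinarith
      have g4 : 12 * (N : ℤ) ≤ 7 * n := by nlinarith
      have g5 : (0 : ℤ) ≤ (N - 1) * n - N ^ 2 + 2 * N := by nlinarith
      have g6 : (N : ℤ) ^ 2 * (48 * k ^ 2) ≤ N ^ 2 * (49 * c) := by nlinarith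
      have hN0 : (0 : ℤ) < (N : ℤ) ^ 2 := by
        have : (0 : ℤ) < N := by linarith
        positivity
      exact le_of_mul_le_mul_left g6 hN0
    · -- rotation certificate with four lines
      have key := main_rot h hn he 4 (by norm_num)
      zify at hA hC hk2 ⊢
      push_cast at key
      have g1 : (0 : ℤ) ≤ 7 * n - 16 * k := by linarith
      have g2 : (0 : ℤ) ≤ 64 * k - 21 * n := by linarith
      have g3 := mul_nonneg g1 g2
      nlinarith

/-- all numerical conclusions -/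
theorem core (h : Geo G L c) (hn : Fintype.card V = n) (he : 2 * (n * k) + 2 ≤ ordE G)
    (hk : 1 ≤ k) :
    48 * k ^ 2 ≤ 49 * c ∧
    ((k ≤ 50 ∨ k ^ 3 ≤ 2 * n ^ 2 ∨ (n - 2 * k) ^ 4 ≤ 64 * k ^ 3 ∨
      (∃ N : ℕ, ((n : ℤ) - N * k) ^ 2 ≤ (N - 1) * n) ∨
      (∃ p : ℕ, (((p : ℤ) - 1) * n - 2 * p * k) ^ 2 ≤ 2 * p * (p - 1) * n)) → k ^ 2 ≤ c) ∧
    ((2 * k ∣ n ∨ (2 ∣ k ∧ k ∣ n)) → k ^ 2 + k + 1 ≤ c) := by
  have hn2 := n_ge hn he
  refine ⟨ratio h hn he hk, ?_, ?_⟩
  · rintro (h1 | h1 | h1 | ⟨N, h1⟩ | ⟨p, h1⟩)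
    · exact exact_fin h hn he hk h1
    · by_cases h3 : 3 * k ≤ n
      · exact exact_large h hn he hk h1 h3
      · push Not at h3
        apply exact_fin h hn he hk
        by_contra hcon
        push Not at hcon
        have h4 : n ^ 2 ≤ (3 * k) ^ 2 := Nat.pow_le_pow_left h3.le 2
        have h5 : 50 * k ^ 2 ≤ k ^ 3 := by
          calc 50 * k ^ 2 ≤ k * k ^ 2 := Nat.mul_le_mul_right _ hcon.le
            _ = k ^ 3 := by ring
        have h6 : 0 < k ^ 2 := by positivity
        nlinarith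
    · exact exact_small h hn he hk h1
    · rcases Nat.lt_or_ge N 2 with hN | hN
      · exfalso
        have hn0 : (0 : ℤ) < n := by
          have : 0 < n := by omega
          exact_mod_cast this
        interval_cases N
        · push_cast at h1
          nlinarith
        · push_cast at h1
          have h3 : ((n : ℤ) - 1 * k) ^ 2 = 0 := le_antisymm (by linarith) (sq_nonneg _)
          have h4 : (n : ℤ) - 1 * k = 0 := by simpa using h3
          zify at hn2 hk
          linarith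
      · apply exact_two h hn he N hN
        have : (0 : ℤ) ≤ N := by positivity
        nlinarith
    · rcases Nat.lt_or_ge p 2 with hp | hp
      · exfalso
        have hn0 : (0 : ℤ) < n := by
          have : 0 < n := by omega
          exact_mod_cast this
        have hk0 : (0 : ℤ) < k := by exact_mod_cast hk
        interval_cases p
        · push_cast at h1
          nlinarith
        · push_cast at h1
          nlinarith
      · exact exact_rot h hn he p hp h1
  · rintro (⟨m, hm⟩ | ⟨⟨q, hq⟩, ⟨N, hN⟩⟩)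
    · have hm1 : 1 ≤ m := by
        rcases m with _ | m
        · omega
        · omega
      exact sharp_one h hn he m hm1 (by rw [hm]; ring)
    · have hN2 : 2 ≤ N := by
        by_contra hcon
        push Not at hcon
        have : k * N ≤ k * 1 := Nat.mul_le_mul_left _ (by omega)
        omega
      exact sharp_two h hn he N q hN2 hq (by rw [hN]; ring)

end Pool.Agent.Helper46.Peel
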