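import Pool.Agent.Helper46.Peel.Groups

/-!
Certificates with balanced group sizes.
-/
namespace Pool.Agent.Helper46.Peel

open Finset Classical

/-- balanced sizes -/
def sz (q r t : ℕ) : ℕ := q + if t < r then 1 else 0

lemma sum_ite_lt (n r : ℕ) : ∑ t ∈ range n, (if t < r then 1 else 0) = min n r := by
  induction n with
  | zero => simp
  | succ n ih =>
    rw [sum_range_succ, ih]
    split_ifs <;> omega

lemma sum_sz (q r n : ℕ) : ∑ t ∈ range n, sz q r t = n * q + min n r := by
  unfold sz
  rw [sum_add_distrib, sum_const, card_range, smul_eq_mul, sum_ite_lt]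

lemma sz_mul_pred (q r t : ℕ) :
    sz q r t * (sz q r t - 1) = q * (q - 1) + 2 * q * (if t < r then 1 else 0) := by
  unfold sz
  split_ifs
  · rcases q with _ | q
    · simp
    · simp only [Nat.add_sub_cancel]; ring
  · simp

lemma sum_sz_pred (q r n : ℕ) :
    ∑ t ∈ range n, sz q r t * (sz q r t - 1) = n * (q * (q - 1)) + 2 * q * min n r := by
  simp only [sz_mul_pred]
  rw [sum_add_distrib, sum_const, card_range, smul_eq_mul, ← mul_sum, sum_ite_lt]

/-- closed form for the neighbour products (`M` = number of consecutive pairs) -/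
def fN (M q r : ℕ) : ℕ := M * (q * q) + q * (min r M + (min r (M + 1) - 1)) + (min r (M + 1) - 1)

lemma sum_sz_succ (q r M : ℕ) :
    ∑ t ∈ range M, sz q r t * sz q r (t + 1) = fN M q r := by
  have h : ∀ t, sz q r t * sz q r (t + 1) = q * q + q * ((if t < r then 1 else 0) +
      (if t + 1 < r then 1 else 0)) + (if t + 1 < r then 1 else 0) := by
    intro t
    unfold sz
    by_cases h1 : t + 1 < r
    · have h2 : t < r := by omega
      simp only [h1, h2, if_true]; ring
    · by_cases h2 : t < r
      · simp only [h1, h2, if_true, if_false]; ring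
      · simp only [h1, h2, if_false]; ring
  simp only [h]
  have h2 : ∑ t ∈ range M, (if t + 1 < r then 1 else 0) = min r (M + 1) - 1 := by
    have : ∀ t, (if t + 1 < r then 1 else 0) = (if t < r - 1 then 1 else 0) := by
      intro t; congr 1; apply propext; omega
    simp only [this]
    rw [sum_ite_lt]; omega
  rw [sum_add_distrib, sum_add_distrib, sum_const, card_range, smul_eq_mul, ← mul_sum,
    sum_add_distrib, sum_ite_lt, h2, min_comm M r]
  rfl

/-- total cost of the half-integral certificate with `M + 1` lines. -/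
def cost2 (M q rL rR : ℕ) : ℕ :=
  ((M + 1) * (q * (q - 1)) + 2 * q * min (M + 1) rL) +
  ((M + 1) * (q * (q - 1)) + 2 * q * min (M + 1) rR) +
  (fN M q rL + fN M q rR) + sz q rL 0 * sz q rR 1 + sz q rR 0 * sz q rL 1

/-- total cost of the integral certificate with `M + 1` lines. -/
def cost1 (M q rL rR : ℕ) : ℕ :=
  ((M + 1) * (q * (q - 1)) + 2 * q * min (M + 1) rL) +
  ((M + 1) * (q * (q - 1)) + 2 * q * min (M + 1) rR)

variable {V : Type*} [Fintype V]

/-- the data coming from geometry -/
structure Geo (G : SimpleGraph V) (L : Finset V) (c : ℕ) : Prop where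
  cutL : cut G L ≤ c
  grid : ∀ A ⊆ L, ∀ B ⊆ Lᶜ, ∀ a ≤ A.card, ∀ b ≤ B.card,
      ∃ S, cut G S ≤ c ∧ (A ∩ S).card = a ∧ (B ∩ S).card = b
  rot : ∀ (X : Finset V), ∀ a ≤ X.card,
      ∃ S : Finset V, (cut G S ≤ c ∧ (S.card = Fintype.card V / 2 ∨ S.card = Fintype.card V / 2 + 1)) ∧
        (X.filter fun v => (v ∈ L ↔ v ∈ S)).card = a
  cardL : L.card = (Fintype.card V + 1) / 2

variable {G : SimpleGraph V} {L : Finset V} {c : ℕ}

lemma Geo.cardR (h : Geo G L c) : (Lᶜ).card = Fintype.card V / 2 := by
  rw [card_compl, h.cardL]; omega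

lemma sz_anti (q r : ℕ) {t j : ℕ} (h : t < j) : sz q r j ≤ sz q r (t + 1) := by
  unfold sz
  split_ifs <;> omega

/-- half-integral certificate -/
theorem cert_two (h : Geo G L c) (M q r : ℕ) (hM : 1 ≤ M)
    (hn : Fintype.card V = 2 * (M + 1) * q + r) (hr : r < 2 * (M + 1)) :
    ordE G ≤ (M + 1) * c + cost2 M q ((r + 1) / 2) (r / 2) := by
  set rL := (r + 1) / 2 with hrL
  set rR := r / 2 with hrR
  have hLc : ∑ t ∈ range (M + 1), sz q rL t = L.card := by
    rw [sum_sz, h.cardL, hn, min_eq_right (by omega)]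
    have : (2 * (M + 1) * q + r + 1) / 2 = (M + 1) * q + (r + 1) / 2 := by
      rw [show 2 * (M + 1) * q + r + 1 = (r + 1) + 2 * ((M + 1) * q) by ring,
        Nat.add_mul_div_left _ _ (by norm_num)]
      ring
    rw [this]
  have hRc : ∑ t ∈ range (M + 1), sz q rR t = (Lᶜ).card := by
    rw [sum_sz, h.cardR, hn, min_eq_right (by omega)]
    have : (2 * (M + 1) * q + r) / 2 = (M + 1) * q + r / 2 := by
      rw [show 2 * (M + 1) * q + r = r + 2 * ((M + 1) * q) by ring,
        Nat.add_mul_div_left _ _ (by norm_num)]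
      ring
    rw [this]
  obtain ⟨T, h1, h2, h3⟩ := exists_groups (fun S => cut G S ≤ c) L h.grid _ _ M hLc hRc
  have key := master_two G (L := L) (T := T) (M := M) h2 h3
    (a' := fun t => sz q rL (t + 1)) (b' := fun t => sz q rR (t + 1))
    (fun t _ j hj _ => sz_anti q rL hj) (fun t _ j hj _ => sz_anti q rR hj) hM
  have hsum : ∑ t ∈ range M, cut G (T t) ≤ M * c := by
    calc _ ≤ ∑ t ∈ range M, c := sum_le_sum fun t ht => h1 t (mem_range.1 ht)
      _ = M * c := by rw [sum_const, card_range, smul_eq_mul]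
  have hcL := h.cutL
  rw [sum_add_distrib, sum_add_distrib, sum_sz_pred, sum_sz_pred, sum_sz_succ, sum_sz_succ] at key
  unfold cost2
  have : (M + 1) * c = M * c + c := by ring
  rw [this]
  simp only [zero_add] at key
  omega

/-- integral certificate -/
theorem cert_one (h : Geo G L c) (M q r : ℕ)
    (hn : Fintype.card V = 2 * (M + 1) * q + r) (hr : r < 2 * (M + 1)) :
    ordE G ≤ 2 * (M + 1) * c + cost1 M q ((r + 1) / 2) (r / 2) := by
  set rL := (r + 1) / 2 with hrL
  set rR := r / 2 with hrR
  have hLc : ∑ t ∈ range (M + 1), sz q rL t = L.card := by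
    rw [sum_sz, h.cardL, hn, min_eq_right (by omega)]
    have : (2 * (M + 1) * q + r + 1) / 2 = (M + 1) * q + (r + 1) / 2 := by
      rw [show 2 * (M + 1) * q + r + 1 = (r + 1) + 2 * ((M + 1) * q) by ring,
        Nat.add_mul_div_left _ _ (by norm_num)]
      ring
    rw [this]
  have hRc : ∑ t ∈ range (M + 1), sz q rR t = (Lᶜ).card := by
    rw [sum_sz, h.cardR, hn, min_eq_right (by omega)]
    have : (2 * (M + 1) * q + r) / 2 = (M + 1) * q + r / 2 := by
      rw [show 2 * (M + 1) * q + r = r + 2 * ((M + 1) * q) by ring,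
        Nat.add_mul_div_left _ _ (by norm_num)]
      ring
    rw [this]
  obtain ⟨T, h1, h2, h3⟩ := exists_groups (fun S => cut G S ≤ c) L h.grid _ _ M hLc hRc
  have key := master_one G (L := L) (T := T) (M := M) h2 h3
  have hsum : ∑ t ∈ range M, cut G (T t) ≤ M * c := by
    calc _ ≤ ∑ t ∈ range M, c := sum_le_sum fun t ht => h1 t (mem_range.1 ht)
      _ = M * c := by rw [sum_const, card_range, smul_eq_mul]
  have hcL := h.cutL
  rw [sum_add_distrib, sum_sz_pred, sum_sz_pred] at key
  unfold cost1
  have : 2 * (M + 1) * c = 2 * (c + M * c) := by ring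
  rw [this]
  omega

/-- excess of an almost halving bipartition -/
def ex1 (n : ℕ) : ℕ := if n % 2 = 1 then 1 else 4

/-- excess of a halving bipartition -/
def ex0 (n : ℕ) : ℕ := if n % 2 = 1 then 1 else 0

/-- bound for unseparated pairs of an almost halving bipartition, doubled. -/
lemma unc_le (n s : ℕ) (hs : s = n / 2 ∨ s = n / 2 + 1) (hn : s ≤ n) :
    2 * unc n s + 2 * n ≤ n * n + ex1 n := by
  unfold unc ex1
  rcases Nat.even_or_odd' n with ⟨k, rfl | rfl⟩
  · have : 2 * k / 2 = k := by omega
    rw [this] at hs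
    rw [if_neg (by omega)]
    rcases hs with rfl | rfl
    · have e1 : 2 * s - s = s := by omega
      rw [e1]
      rcases s with _ | s
      · simp
      · simp only [Nat.add_sub_cancel]; nlinarith
    · have e1 : 2 * k - (k + 1) = k - 1 := by omega
      rw [e1, Nat.add_sub_cancel]
      rcases k with _ | k
      · simp
      · rw [Nat.add_sub_cancel]
        rcases k with _ | k
        · simp
        · rw [Nat.add_sub_cancel]; nlinarith
  · have : (2 * k + 1) / 2 = k := by omega
    rw [this] at hs
    rw [if_pos (by omega)]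
    rcases hs with rfl | rfl
    · have e1 : 2 * s + 1 - s = s + 1 := by omega
      rw [e1, Nat.add_sub_cancel]
      rcases s with _ | s
      · simp
      · simp only [Nat.add_sub_cancel]; nlinarith
    · have e1 : 2 * k + 1 - (k + 1) = k := by omega
      rw [e1, Nat.add_sub_cancel]
      rcases k with _ | k
      · simp
      · rw [Nat.add_sub_cancel]; nlinarith

lemma unc_half (n : ℕ) : 2 * unc n ((n + 1) / 2) + 2 * n ≤ n * n + ex0 n := by
  unfold unc ex0
  rcases Nat.even_or_odd' n with ⟨k, rfl | rfl⟩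
  · have : (2 * k + 1) / 2 = k := by omega
    rw [this, if_neg (by omega)]
    have e1 : 2 * k - k = k := by omega
    rw [e1]
    rcases k with _ | k
    · simp
    · simp only [Nat.add_sub_cancel]; nlinarith
  · have : (2 * k + 1 + 1) / 2 = k + 1 := by omega
    rw [this, if_pos (by omega)]
    have e1 : 2 * k + 1 - (k + 1) = k := by omega
    rw [e1, Nat.add_sub_cancel]
    rcases k with _ | k
    · simp
    · rw [Nat.add_sub_cancel]; nlinarith

/-- total cost of the rotation certificate with `M + 1` lines, on `n = (M+1) q + r` points. -/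
def cost3 (M q r : ℕ) : ℕ :=
  (M + 1 - r) * (q ^ 2 / 4) + r * ((q + 1) ^ 2 / 4)

lemma sum_cost3 (M q r : ℕ) (hr : r ≤ M + 1) :
    ∑ t ∈ range (M + 1), (sz q r t) ^ 2 / 4 = cost3 M q r := by
  have h : ∀ t, (sz q r t) ^ 2 / 4 = if t < r then (q + 1) ^ 2 / 4 else q ^ 2 / 4 := by
    intro t
    unfold sz
    split_ifs <;> simp
  simp only [h]
  rw [← sum_filter_add_sum_filter_not (range (M + 1)) (fun t => t < r)]
  have e1 : (range (M + 1)).filter (fun t => t < r) = range r := by
    ext t; simp only [mem_filter, mem_range]; omega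
  have e2 : ((range (M + 1)).filter (fun t => ¬ t < r)).card = M + 1 - r := by
    have := card_filter_add_card_filter_not (s := range (M + 1)) (fun t => t < r)
    rw [e1, card_range, card_range] at this
    omega
  have e3 : ∑ t ∈ (range (M + 1)).filter (fun t => t < r),
      (if t < r then (q + 1) ^ 2 / 4 else q ^ 2 / 4) = r * ((q + 1) ^ 2 / 4) := by
    rw [e1]
    calc _ = ∑ t ∈ range r, (q + 1) ^ 2 / 4 :=
          sum_congr rfl fun t ht => if_pos (mem_range.1 ht)
      _ = _ := by rw [sum_const, card_range, smul_eq_mul]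
  have e4 : ∑ t ∈ (range (M + 1)).filter (fun t => ¬ t < r),
      (if t < r then (q + 1) ^ 2 / 4 else q ^ 2 / 4) = (M + 1 - r) * (q ^ 2 / 4) := by
    calc _ = ∑ t ∈ (range (M + 1)).filter (fun t => ¬ t < r), q ^ 2 / 4 :=
          sum_congr rfl fun t ht => if_neg (mem_filter.1 ht).2
      _ = _ := by rw [sum_const, e2, smul_eq_mul]
  rw [e3, e4]
  unfold cost3
  ring

/-- rotation certificate -/
theorem cert_rot (h : Geo G L c) (M q r : ℕ)
    (hn : Fintype.card V = (M + 1) * q + r) (hr : r < M + 1) :
    2 * (M * ordE G) + 2 * (Fintype.card V * (Fintype.card V - 1)) +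
      2 * (M + 1) * Fintype.card V ≤
      4 * (M + 1) * c + (M * (Fintype.card V * Fintype.card V + ex1 (Fintype.card V)) +
        (Fintype.card V * Fintype.card V + ex0 (Fintype.card V))) + 4 * cost3 M q r := by
  have hgs : ∑ t ∈ range (M + 1), sz q r t = Fintype.card V := by
    rw [sum_sz, hn, min_eq_right (by omega)]
  obtain ⟨T, h1, h2⟩ := exists_rot
    (fun S => cut G S ≤ c ∧ (S.card = Fintype.card V / 2 ∨ S.card = Fintype.card V / 2 + 1)) L
    h.rot _ M hgs
  have key := master_rot G (L := L) (T := T) (M := M) h2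
  rw [sum_cost3 M q r hr.le] at key
  have hsum : ∑ t ∈ range M, cut G (T t) ≤ M * c := by
    calc _ ≤ ∑ t ∈ range M, c := sum_le_sum fun t ht => (h1 t (mem_range.1 ht)).1
      _ = M * c := by rw [sum_const, card_range, smul_eq_mul]
  set n := Fintype.card V with hnn
  have hU : 2 * ∑ t ∈ range M, unc n (T t).card + M * (2 * n) ≤ M * (n * n + ex1 n) := by
    have : ∑ t ∈ range M, (2 * unc n (T t).card + 2 * n) ≤ ∑ t ∈ range M, (n * n + ex1 n) :=
      sum_le_sum fun t ht => unc_le n _ (h1 t (mem_range.1 ht)).2 (card_le_univ _)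
    rwa [sum_add_distrib, sum_const, sum_const, card_range, smul_eq_mul, smul_eq_mul,
      ← mul_sum] at this
  have hUL : 2 * unc n L.card + 2 * n ≤ n * n + ex0 n := by
    rw [h.cardL]
    exact unc_half n
  have hcL := h.cutL
  have f1 : 4 * (M + 1) * c = 4 * (M * c) + 4 * c := by ring
  have f3 : 2 * (M + 1) * n = M * (2 * n) + 2 * n := by ring
  rw [f1, f3]
  omega

end Pool.Agent.Helper46.Peel
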