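import Mathlib

/-!
Peeling by bipartitions: purely combinatorial part.
-/
namespace Pool.Agent.Helper46.Peel

open Finset

variable {V : Type*} [Fintype V] [DecidableEq V]

/-- number of edges of `G` between `S` and its complement. -/
noncomputable def cut (G : SimpleGraph V) (S : Finset V) : ℕ :=
  open Classical in ((S ×ˢ Sᶜ).filter fun q => G.Adj q.1 q.2).card

/-- number of ordered adjacent pairs. -/
noncomputable def ordE (G : SimpleGraph V) : ℕ :=
  open Classical in ((univ : Finset (V × V)).filter fun q => G.Adj q.1 q.2).card

/-- `T` peels `L` from inside and `R` from outside: group `t` of `L`. -/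
def grpL (L : Finset V) (T : ℕ → Finset V) (M t : ℕ) : Finset V :=
  L.filter fun v => (∀ s < t, v ∉ T s) ∧ (t < M → v ∈ T t)

def grpR (R : Finset V) (T : ℕ → Finset V) (M t : ℕ) : Finset V :=
  R.filter fun v => (∀ s < t, v ∈ T s) ∧ (t < M → v ∉ T t)

/-- remainders -/
def remL (L : Finset V) (T : ℕ → Finset V) (t : ℕ) : Finset V :=
  L.filter fun v => ∀ s < t, v ∉ T s

def remR (R : Finset V) (T : ℕ → Finset V) (t : ℕ) : Finset V :=
  R.filter fun v => ∀ s < t, v ∈ T s

lemma remL_zero (L : Finset V) (T : ℕ → Finset V) : remL L T 0 = L := by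
  simp [remL]

lemma remR_zero (R : Finset V) (T : ℕ → Finset V) : remR R T 0 = R := by
  simp [remR]

/-- Existence of the peeling. -/
lemma exists_peel (𝒢 : Finset V → Prop) (L R : Finset V)
    (hgrid : ∀ A ⊆ L, ∀ B ⊆ R, ∀ a ≤ A.card, ∀ b ≤ B.card,
      ∃ S, 𝒢 S ∧ (A ∩ S).card = a ∧ (B ∩ S).card = b)
    (a b : ℕ → ℕ) (m : ℕ) (ha : ∑ t ∈ range m, a t ≤ L.card) (hb : ∑ t ∈ range m, b t ≤ R.card) :
    ∃ T : ℕ → Finset V, (∀ t < m, 𝒢 (T t)) ∧
      (∀ t < m, (remL L T t ∩ T t).card = a t ∧ (remR R T t \ T t).card = b t) ∧
      (remL L T m).card + ∑ t ∈ range m, a t = L.card ∧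
      (remR R T m).card + ∑ t ∈ range m, b t = R.card := by
  induction m with
  | zero =>
    refine ⟨fun _ => ∅, by simp, by simp, ?_, ?_⟩
    · simp [remL_zero]
    · simp [remR_zero]
  | succ m ih =>
    rw [sum_range_succ] at ha hb
    obtain ⟨T, h1, h2, h3, h4⟩ := ih (by omega) (by omega)
    have hA : remL L T m ⊆ L := filter_subset _ _
    have hB : remR R T m ⊆ R := filter_subset _ _
    obtain ⟨S, hS, hSa, hSb⟩ := hgrid _ hA _ hB (a m) (by omega) ((remR R T m).card - b m) (by omega)
    have hrl : ∀ t ≤ m, remL L (Function.update T m S) t = remL L T t := by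
      intro t ht
      unfold remL
      apply filter_congr
      intro v _
      apply forall_congr'; intro s
      apply forall_congr'; intro hs
      rw [Function.update_of_ne (by omega)]
    have hrr : ∀ t ≤ m, remR R (Function.update T m S) t = remR R T t := by
      intro t ht
      unfold remR
      apply filter_congr
      intro v _
      apply forall_congr'; intro s
      apply forall_congr'; intro hs
      rw [Function.update_of_ne (by omega)]
    have hsb : (remR R T m \ S).card = b m := by
      have := card_sdiff_add_card_inter (remR R T m) S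
      omega
    refine ⟨Function.update T m S, ?_, ?_, ?_, ?_⟩
    · intro t ht
      rcases eq_or_ne t m with rfl | h
      · rw [Function.update_self]; exact hS
      · rw [Function.update_of_ne h]; exact h1 t (by omega)
    · intro t ht
      rw [hrl t (by omega), hrr t (by omega)]
      rcases eq_or_ne t m with rfl | h
      · rw [Function.update_self]; exact ⟨hSa, hsb⟩
      · rw [Function.update_of_ne h]; exact h2 t (by omega)
    · have : remL L (Function.update T m S) (m + 1) = remL L T m \ S := by
        rw [← hrl m le_rfl]
        ext v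
        simp only [remL, mem_filter, mem_sdiff, Nat.lt_succ_iff]
        constructor
        · rintro ⟨hv, h⟩
          refine ⟨⟨hv, fun s hs => h s hs.le⟩, ?_⟩
          have := h m le_rfl
          rwa [Function.update_self] at this
        · rintro ⟨⟨hv, h⟩, hS'⟩
          refine ⟨hv, fun s hs => ?_⟩
          rcases hs.lt_or_eq with hs | rfl
          · exact h s hs
          · rwa [Function.update_self]
      rw [this, sum_range_succ]
      have := card_sdiff_add_card_inter (remL L T m) S
      omega
    · have : remR R (Function.update T m S) (m + 1) = remR R T m ∩ S := by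
        rw [← hrr m le_rfl]
        ext v
        simp only [remR, mem_filter, mem_inter, Nat.lt_succ_iff]
        constructor
        · rintro ⟨hv, h⟩
          refine ⟨⟨hv, fun s hs => h s hs.le⟩, ?_⟩
          have := h m le_rfl
          rwa [Function.update_self] at this
        · rintro ⟨⟨hv, h⟩, hS'⟩
          refine ⟨hv, fun s hs => ?_⟩
          rcases hs.lt_or_eq with hs | rfl
          · exact h s hs
          · rwa [Function.update_self]
      rw [this, sum_range_succ]
      have := card_sdiff_add_card_inter (remR R T m) S
      omega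

end Pool.Agent.Helper46.Peel
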