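import Mathlib

/-!
Definitions used in the statements on lines crossing many edges of a geometric graph.
-/
namespace Pool.Agent.Helper46.Peel

/-- The Euclidean plane. -/
abbrev Plane := EuclideanSpace ℝ (Fin 2)

/-- `crossings p G a b` is the number of edges `uv` of the graph `G`, drawn as closed segments
`[p u, p v]`, that meet the straight line through the points `a` and `b`. -/
noncomputable def crossings {V : Type*} (p : V → Plane) (G : SimpleGraph V) (a b : Plane) : ℕ :=
  Set.ncard {e : Sym2 V | e ∈ G.edgeSet ∧
    ∃ u v : V, e = s(u, v) ∧ ∃ z ∈ segment ℝ (p u) (p v), z ∈ line[ℝ, a, b]}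

end Pool.Agent.Helper46.Peel
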