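import Pool.Agent.Helper46.Peel.Geom

/-!
The common form of the final statements: if all lines avoiding the vertices meet at most `c` edges
then the numerical bounds of `core` hold.
-/
namespace Pool.Agent.Helper46.Peel

open Classical

variable {V : Type*} [Fintype V]

theorem final_core (p : V → Plane) (hp : Function.Injective p)
    (hgen : ∀ u v w : V, u ≠ v → u ≠ w → v ≠ w → ¬ Collinear ℝ ({p u, p v, p w} : Set Plane))
    (G : SimpleGraph V) {n k c : ℕ} (hn : Fintype.card V = n) (hk : 1 ≤ k)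
    (he : n * k < G.edgeSet.ncard)
    (hc : ∀ a b : Plane, a ≠ b → (∀ v, p v ∉ line[ℝ, a, b]) → crossings p G a b ≤ c) :
    48 * k ^ 2 ≤ 49 * c ∧
    ((k ≤ 50 ∨ k ^ 3 ≤ 2 * n ^ 2 ∨ (n - 2 * k) ^ 4 ≤ 64 * k ^ 3 ∨
      (∃ N : ℕ, ((n : ℤ) - N * k) ^ 2 ≤ (N - 1) * n) ∨
      (∃ q : ℕ, (((q : ℤ) - 1) * n - 2 * q * k) ^ 2 ≤ 2 * q * (q - 1) * n)) → k ^ 2 ≤ c) ∧
    ((2 * k ∣ n ∨ (2 ∣ k ∧ k ∣ n)) → k ^ 2 + k + 1 ≤ c) := by
  have he' : 2 * (n * k) + 2 ≤ ordE G := by
    rw [ordE_eq]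
    omega
  have h2 : 2 ≤ Fintype.card V := by
    by_contra hlt
    push Not at hlt
    have hsub : Subsingleton V := Fintype.card_le_one_iff_subsingleton.1 (by omega)
    have : G.edgeSet = ∅ := by
      rw [SimpleGraph.edgeSet_eq_empty]
      ext u v
      simp only [SimpleGraph.bot_adj, iff_false]
      intro h
      exact h.ne (Subsingleton.elim _ _)
    rw [this] at he
    simp at he
  obtain ⟨L, hL⟩ := geo_exists p hp hgen G c h2 hc
  exact core hL hn he' hk

end Pool.Agent.Helper46.Peel
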