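import Pool.Agent.Helper46.Peel.Arith

/-!
Finite check for `k ≤ 50`.
-/
namespace Pool.Agent.Helper46.Peel

open Finset Classical

/-- rotation certificate with `M + 1` lines works -/
def cR (M n k : ℕ) : Bool :=
  Nat.blt (4 * (M + 1) * (k * k - 1) + (M * (n * n + (if n % 2 = 1 then 1 else 4)) +
    (n * n + (if n % 2 = 1 then 1 else 0))) +
    4 * ((M + 1 - n % (M + 1)) * ((n / (M + 1)) * (n / (M + 1)) / 4) +
      (n % (M + 1)) * ((n / (M + 1) + 1) * (n / (M + 1) + 1) / 4)))
    (2 * M * (2 * (n * k) + 2) + 2 * (n * (n - 1)) + 2 * (M + 1) * n)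

/-- two lines of weight one -/
def cO (n k : ℕ) : Bool :=
  Nat.blt (4 * (k * k - 1) + cost1 1 (n / 4) ((n % 4 + 1) / 2) (n % 4 / 2)) (2 * (n * k) + 2)

/-- five lines of weight one half -/
def cT (n k : ℕ) : Bool :=
  Nat.blt (5 * (k * k - 1) + cost2 4 (n / 10) ((n % 10 + 1) / 2) (n % 10 / 2)) (2 * (n * k) + 2)

def chk (n k : ℕ) : Bool := cR 2 n k || cO n k || cR 6 n k || cT n k

/-- all relevant pairs with given `k`: `n = 2k+2+i`. -/
def chkRow (k : ℕ) : Bool :=
  (List.range 150).all fun i =>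
    !(Nat.blt (2 * k + 2 + i) (3 * k) ||
      Nat.blt (2 * ((2 * k + 2 + i) * (2 * k + 2 + i))) (k * k * k)) || chk (2 * k + 2 + i) k

theorem chk_all : ((List.range 51).all fun k => chkRow k) = true := by decide +kernel

end Pool.Agent.Helper46.Peel
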