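import Pool.Agent.Helper46.Peel.Defs
import Pool.Agent.Helper46.Peel.Bounds

/-!
From plane geometry to the combinatorial data.
-/
namespace Pool.Agent.Helper46.Peel

open Finset Classical

variable {V : Type*} [Fintype V]

/-- a linear functional on the plane -/
def lf (α β : ℝ) (z : Plane) : ℝ := α * z 0 + β * z 1

lemma lf_combo (α β s t : ℝ) (z w : Plane) : lf α β (s • z + t • w) = s * lf α β z + t * lf α β w := by
  simp only [lf, PiLp.add_apply, PiLp.smul_apply, smul_eq_mul]
  ring

/-- every level set is a line through two points -/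
lemma exists_line (α β γ : ℝ) (h : α ≠ 0 ∨ β ≠ 0) :
    ∃ a b : Plane, a ≠ b ∧ ∀ z : Plane, z ∈ line[ℝ, a, b] ↔ lf α β z = γ := by
  have hpos : 0 < α ^ 2 + β ^ 2 := by
    rcases h with h | h
    · have : 0 < α ^ 2 := by positivity
      have : 0 ≤ β ^ 2 := sq_nonneg _
      linarith
    · have : 0 < β ^ 2 := by positivity
      have : 0 ≤ α ^ 2 := sq_nonneg _
      linarith
  set D := α ^ 2 + β ^ 2 with hD
  have hD0 : D ≠ 0 := hpos.ne'
  set a : Plane := !₂[γ * α / D, γ * β / D] with ha
  set b : Plane := !₂[γ * α / D - β, γ * β / D + α] with hb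
  have a0 : a 0 = γ * α / D := by simp [ha]
  have a1 : a 1 = γ * β / D := by simp [ha]
  have b0 : b 0 = γ * α / D - β := by simp [hb]
  have b1 : b 1 = γ * β / D + α := by simp [hb]
  refine ⟨a, b, ?_, ?_⟩
  · intro hab
    have h0 : a 0 = b 0 := by rw [hab]
    have h1 : a 1 = b 1 := by rw [hab]
    rw [a0, b0] at h0
    rw [a1, b1] at h1
    rcases h with h | h
    · exact h (by linarith)
    · exact h (by linarith)
  · intro z
    rw [mem_affineSpan_pair_iff_exists_lineMap_eq]
    constructor
    · rintro ⟨r, rfl⟩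
      simp only [lf, AffineMap.lineMap_apply, vsub_eq_sub, vadd_eq_add, PiLp.add_apply,
        PiLp.smul_apply, PiLp.sub_apply, smul_eq_mul, a0, a1, b0, b1]
      have : α * (r * (γ * α / D - β - γ * α / D) + γ * α / D) +
          β * (r * (γ * β / D + α - γ * β / D) + γ * β / D) = γ * (α ^ 2 + β ^ 2) / D := by ring
      rw [this, ← hD, mul_div_assoc, div_self hD0, mul_one]
    · intro hz
      unfold lf at hz
      refine ⟨(-β * (z 0) + α * (z 1)) / D, ?_⟩
      ext i
      fin_cases i
      · simp only [AffineMap.lineMap_apply, vsub_eq_sub, vadd_eq_add, PiLp.add_apply,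
          PiLp.smul_apply, PiLp.sub_apply, smul_eq_mul, Fin.zero_eta, a0, b0]
        have : (-β * z 0 + α * z 1) / D * (γ * α / D - β - γ * α / D) + γ * α / D =
            (β ^ 2 * z 0 - α * β * z 1 + γ * α) / D := by ring
        rw [this, ← hz, div_eq_iff hD0, hD]
        ring
      · simp only [AffineMap.lineMap_apply, vsub_eq_sub, vadd_eq_add, PiLp.add_apply,
          PiLp.smul_apply, PiLp.sub_apply, smul_eq_mul, Fin.mk_one, a1, b1]
        have : (-β * z 0 + α * z 1) / D * (γ * β / D + α - γ * β / D) + γ * β / D =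
            (α ^ 2 * z 1 - α * β * z 0 + γ * β) / D := by ring
        rw [this, ← hz, div_eq_iff hD0, hD]
        ring

/-- segments and level sets -/
lemma seg_iff {α β γ : ℝ} {z w : Plane} (hz : lf α β z ≠ γ) (hw : lf α β w ≠ γ) :
    (∃ x ∈ segment ℝ z w, lf α β x = γ) ↔ ¬ (lf α β z < γ ↔ lf α β w < γ) := by
  constructor
  · rintro ⟨x, ⟨s, t, hs, ht, hst, rfl⟩, hx⟩ hiff
    rw [lf_combo] at hx
    have hγ : (s + t) * γ = γ := by rw [hst, one_mul]
    rcases lt_or_gt_of_ne hz with h1 | h1
    · have h2 := hiff.1 h1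
      have : s * lf α β z + t * lf α β w < γ := by
        rcases hs.lt_or_eq with hs | hs
        · have g1 := mul_pos hs (sub_pos.2 h1)
          have g2 := mul_nonneg ht (sub_nonneg.2 h2.le)
          nlinarith
        · subst hs
          have : t = 1 := by linarith
          subst this
          linarith
      linarith
    · have h2 : γ < lf α β w := by
        rcases lt_or_gt_of_ne hw with h | h
        · exact absurd (hiff.2 h) (not_lt.2 h1.le)
        · exact h
      have : γ < s * lf α β z + t * lf α β w := by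
        rcases hs.lt_or_eq with hs | hs
        · have g1 := mul_pos hs (sub_pos.2 h1)
          have g2 := mul_nonneg ht (sub_nonneg.2 h2.le)
          nlinarith
        · subst hs
          have : t = 1 := by linarith
          subst this
          linarith
      linarith
  · intro hne
    -- the point at parameter t
    have hd : lf α β z - lf α β w ≠ 0 := by
      intro h
      apply hne
      have : lf α β z = lf α β w := by linarith
      rw [this]
    have h3 : (lf α β z < γ ∧ γ < lf α β w) ∨ (lf α β w < γ ∧ γ < lf α β z) := by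
      rcases lt_or_gt_of_ne hz with h1 | h1 <;> rcases lt_or_gt_of_ne hw with h2 | h2
      · exact absurd (iff_of_true h1 h2) hne
      · exact Or.inl ⟨h1, h2⟩
      · exact Or.inr ⟨h2, h1⟩
      · exact absurd (iff_of_false (not_lt.2 h1.le) (not_lt.2 h2.le)) hne
    set t := (lf α β z - γ) / (lf α β z - lf α β w) with ht
    have ht0 : 0 ≤ t := by
      rcases h3 with h | h
      · rw [ht, div_nonneg_iff]; right; constructor <;> linarith
      · rw [ht, div_nonneg_iff]; left; constructor <;> linarith
    have ht1 : t ≤ 1 := by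
      rcases h3 with h | h
      · rw [ht, div_le_one_of_neg (by linarith)]; linarith
      · rw [ht, div_le_one (by linarith)]; linarith
    refine ⟨(1 - t) • z + t • w, ⟨1 - t, t, by linarith, ht0, by ring, rfl⟩, ?_⟩
    rw [lf_combo]
    have : t * (lf α β z - lf α β w) = lf α β z - γ := by
      rw [ht, div_mul_cancel₀ _ hd]
    linarith

lemma ordE_eq (G : SimpleGraph V) : ordE G = 2 * G.edgeSet.ncard := by
  have h1 : G.edgeSet.ncard = G.edgeFinset.card := by
    rw [← SimpleGraph.coe_edgeFinset, Set.ncard_coe_finset]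
  rw [h1, ← SimpleGraph.sum_degrees_eq_twice_card_edges]
  unfold ordE
  rw [card_filter, ← univ_product_univ, sum_product]
  apply sum_congr rfl
  intro u _
  rw [← card_filter, ← SimpleGraph.card_neighborFinset_eq_degree]
  congr 1
  ext v
  simp

/-- the crossing number of a line avoiding the vertices is a cut size. -/
lemma crossings_eq (p : V → Plane) (G : SimpleGraph V) {α β γ : ℝ} {a b : Plane}
    (hab : ∀ z : Plane, z ∈ line[ℝ, a, b] ↔ lf α β z = γ) (hav : ∀ v, lf α β (p v) ≠ γ)
    {S : Finset V} (hS : ∀ v, v ∈ S ↔ lf α β (p v) < γ) :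
    crossings p G a b = cut G S := by
  unfold crossings cut
  have hset : {e : Sym2 V | e ∈ G.edgeSet ∧
      ∃ u v : V, e = s(u, v) ∧ ∃ z ∈ segment ℝ (p u) (p v), z ∈ line[ℝ, a, b]} =
      (((S ×ˢ Sᶜ).filter fun q => G.Adj q.1 q.2).image fun q => s(q.1, q.2) : Finset (Sym2 V)) := by
    ext e
    simp only [Set.mem_ofPred_eq, coe_image, Set.mem_image, mem_coe, mem_filter, mem_product,
      mem_compl, Prod.exists]
    constructor
    · rintro ⟨he, u, v, rfl, hz⟩
      simp only [hab] at hz
      rw [seg_iff (hav u) (hav v)] at hz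
      rw [← hS, ← hS] at hz
      rw [SimpleGraph.mem_edgeSet] at he
      by_cases hu : u ∈ S
      · exact ⟨u, v, ⟨⟨hu, fun hv => hz (iff_of_true hu hv)⟩, he⟩, rfl⟩
      · have hv : v ∈ S := by
          by_contra hv
          exact hz (iff_of_false hu hv)
        exact ⟨v, u, ⟨⟨hv, hu⟩, he.symm⟩, Sym2.eq_swap⟩
    · rintro ⟨u, v, ⟨⟨hu, hv⟩, he⟩, rfl⟩
      refine ⟨he, u, v, rfl, ?_⟩
      simp only [hab]
      rw [seg_iff (hav u) (hav v), ← hS, ← hS]
      tauto
  rw [hset, Set.ncard_coe_finset, card_image_of_injOn]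
  rintro ⟨u, v⟩ h ⟨u', v'⟩ h' heq
  simp only [coe_filter, mem_product, mem_compl, Set.mem_ofPred_eq] at h h'
  simp only [Sym2.eq_iff] at heq
  rcases heq with ⟨h1, h2⟩ | ⟨h1, h2⟩
  · rw [h1, h2]
  · exfalso
    rw [h1] at h
    exact h'.1.2 h.1.1

/-- The combinatorial data of a geometric graph all of whose cuts are at most `c`. -/
theorem geo_exists (p : V → Plane) (hp : Function.Injective p)
    (hgen : ∀ u v w : V, u ≠ v → u ≠ w → v ≠ w → ¬ Collinear ℝ ({p u, p v, p w} : Set Plane))
    (G : SimpleGraph V) (c : ℕ) (hn : 2 ≤ Fintype.card V)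
    (hc : ∀ a b : Plane, a ≠ b → (∀ v, p v ∉ line[ℝ, a, b]) → crossings p G a b ≤ c) :
    ∃ L : Finset V, Geo G L c := by
  -- level sets give cuts
  have hlev : ∀ (α β γ : ℝ) (S : Finset V), (α ≠ 0 ∨ β ≠ 0) → (∀ v, lf α β (p v) ≠ γ) →
      (∀ v, v ∈ S ↔ lf α β (p v) < γ) → cut G S ≤ c := by
    intro α β γ S h0 hav hS
    obtain ⟨a, b, hab, hline⟩ := exists_line α β γ h0
    rw [← crossings_eq p G hline hav hS]
    apply hc a b hab
    intro v hv
    exact hav v ((hline _).1 hv)
  -- generic shear
  set B : Finset ℝ := (univ : Finset (V × V)).image fun q =>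
    -((p q.1 0 - p q.2 0) / (p q.1 1 - p q.2 1)) with hB
  obtain ⟨s, hs⟩ := Infinite.exists_notMem_finset B
  set x : V → ℝ := fun v => p v 0 + s * p v 1 with hx
  set y : V → ℝ := fun v => p v 1 with hy
  have hinj : Function.Injective x := by
    intro u v huv
    by_contra hne
    simp only [hx] at huv
    by_cases h1 : p u 1 = p v 1
    · apply hne
      apply hp
      ext i
      fin_cases i
      · rw [h1] at huv; simpa using huv
      · simpa using h1
    · apply hs
      rw [hB, mem_image]
      refine ⟨(u, v), mem_univ _, ?_⟩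
      have : p u 1 - p v 1 ≠ 0 := sub_ne_zero.2 h1
      field_simp
      linarith
  have hg : GenPos x y := by
    refine ⟨hinj, ?_⟩
    intro u v w huv hwu hwv heq
    apply hgen u v w huv (Ne.symm hwu) (Ne.symm hwv)
    have hxx : x v - x u ≠ 0 := sub_ne_zero.2 fun h' => huv (hinj h').symm
    set t := (x w - x u) / (x v - x u) with ht
    have e1 : x w - x u = t * (x v - x u) := by rw [ht, div_mul_cancel₀ _ hxx]
    have e2 : y w - y u = t * (y v - y u) := by
      unfold ln slp at heq
      rw [heq, ht]
      field_simp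
      ring
    rw [collinear_iff_of_mem (p₀ := p u) (by simp)]
    refine ⟨p v - p u, ?_⟩
    intro z hz
    simp only [Set.mem_insert_iff, Set.mem_singleton_iff] at hz
    rcases hz with rfl | rfl | rfl
    · exact ⟨0, by simp⟩
    · exact ⟨1, by simp⟩
    · refine ⟨t, ?_⟩
      simp only [hx, hy] at e1 e2
      ext i
      fin_cases i
      · simp only [vadd_eq_add, PiLp.add_apply, PiLp.smul_apply, PiLp.sub_apply, smul_eq_mul,
          Fin.zero_eta]
        linear_combination e1 - s * e2
      · simp only [vadd_eq_add, PiLp.add_apply, PiLp.smul_apply, PiLp.sub_apply, smul_eq_mul,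
          Fin.mk_one]
        linear_combination e2
  -- `Below` sets
  have hbel : ∀ S, Below x y S → cut G S ≤ c := by
    rintro S ⟨m, b, h1, h2⟩
    apply hlev (-m) (1 - m * s) b S
    · by_cases hm : m = 0
      · right; rw [hm]; norm_num
      · left; exact neg_ne_zero.2 hm
    · intro v hv
      apply h2 v
      simp only [lf] at hv
      simp only [hx, hy]
      linarith
    · intro v
      rw [h1 v]
      simp only [lf, hx, hy]
      constructor <;> intro h <;> linarith
  -- the vertical halving line
  obtain ⟨L, hL, hLc⟩ := exists_ini (x := x) (y := x) 0 ((Fintype.card V + 1) / 2) (by omega)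
  have hLne : L.Nonempty := by rw [← card_pos]; omega
  have hRne : (Lᶜ).Nonempty := by rw [← card_pos, card_compl]; omega
  obtain ⟨l0, hl0, hl0'⟩ := exists_max_image L x hLne
  obtain ⟨r0, hr0, hr0'⟩ := exists_min_image Lᶜ x hRne
  have hlr : x l0 < x r0 := by
    have h1 := hL l0 hl0 r0 (mem_compl.1 hr0)
    unfold hgt at h1
    refine lt_of_le_of_ne (by linarith) ?_
    intro h
    have := hinj h
    rw [this] at hl0
    exact (mem_compl.1 hr0) hl0
  set c0 := (x l0 + x r0) / 2 with hc0
  have hLlt : ∀ z ∈ L, x z < c0 := fun z hz => by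
    have := hl0' z hz
    linarith
  have hRgt : ∀ z ∉ L, c0 < x z := fun z hz => by
    have := hr0' z (mem_compl.2 hz)
    linarith
  refine ⟨L, ?_, ?_, ?_, hLc⟩
  · apply hlev 1 s c0 L (Or.inl one_ne_zero)
    · intro v hv
      simp only [lf, one_mul] at hv
      by_cases hvL : v ∈ L
      · have := hLlt v hvL
        simp only [hx] at this
        linarith
      · have := hRgt v hvL
        simp only [hx] at this
        linarith
    · intro v
      simp only [lf, one_mul]
      constructor
      · intro hv; exact hLlt v hv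
      · intro hv
        by_contra hvL
        have := hRgt v hvL
        simp only [hx] at this
        linarith
  · -- grid
    intro A hA A' hA' a ha a' ha'
    rcases A.eq_empty_or_nonempty with rfl | hne
    · rcases A'.eq_empty_or_nonempty with rfl | hne'
      · obtain ⟨S, h1, h2, h3⟩ := grid hg (A := {l0}) (B := {r0}) (c := c0)
          (by intro z hz; rw [mem_singleton] at hz; rw [hz]; exact hLlt _ hl0)
          (by intro z hz; rw [mem_singleton] at hz; rw [hz]; exact hRgt _ (mem_compl.1 hr0))
          (singleton_nonempty _) (singleton_nonempty _) (a := 0) (b := 0) (Nat.zero_le _)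
          (Nat.zero_le _)
        rw [card_empty, Nat.le_zero] at ha ha'
        exact ⟨S, hbel S h1, by simp [ha], by simp [ha']⟩
      · obtain ⟨S, h1, h2, h3⟩ := grid hg (A := {l0}) (B := A') (c := c0)
          (by intro z hz; rw [mem_singleton] at hz; rw [hz]; exact hLlt _ hl0)
          (fun z hz => hRgt z (mem_compl.1 (hA' hz)))
          (singleton_nonempty _) hne' (a := 0) (b := a') (Nat.zero_le _) ha'
        rw [card_empty, Nat.le_zero] at ha
        exact ⟨S, hbel S h1, by simp [ha], h3⟩
    · rcases A'.eq_empty_or_nonempty with rfl | hne'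
      · obtain ⟨S, h1, h2, h3⟩ := grid hg (A := A) (B := {r0}) (c := c0)
          (fun z hz => hLlt z (hA hz))
          (by intro z hz; rw [mem_singleton] at hz; rw [hz]; exact hRgt _ (mem_compl.1 hr0))
          hne (singleton_nonempty _) (a := a) (b := 0) ha (Nat.zero_le _)
        rw [card_empty, Nat.le_zero] at ha'
        exact ⟨S, hbel S h1, h2, by simp [ha']⟩
      · obtain ⟨S, h1, h2, h3⟩ := grid hg (A := A) (B := A') (c := c0)
          (fun z hz => hLlt z (hA hz)) (fun z hz => hRgt z (mem_compl.1 (hA' hz)))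
          hne hne' ha ha'
        exact ⟨S, hbel S h1, h2, h3⟩
  · -- rotation
    intro X a ha
    have hR : (Lᶜ).card = Fintype.card V / 2 := by rw [card_compl, hLc]; omega
    obtain ⟨S, h1, h2⟩ := rotate hg hLlt hRgt hR (by omega) X ha
    exact ⟨S, ⟨hbel S h1.1, h1.2⟩, h2⟩

end Pool.Agent.Helper46.Peel
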