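import Mathlib

/-!
The grid lemma: lines cutting two separated point sets in prescribed numbers.
-/
namespace Pool.Agent.Helper46.Peel

open Finset Filter Topology

variable {V : Type*} [DecidableEq V]

/-- slope of the line through `p` and `q` -/
noncomputable def slp (x y : V → ℝ) (p q : V) : ℝ := (y q - y p) / (x q - x p)

/-- line through `p` and `q` -/
noncomputable def ln (x y : V → ℝ) (p q : V) (t : ℝ) : ℝ := y p + slp x y p q * (t - x p)

/-- general position: distinct abscissae and no point on the line through two others. -/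
structure GenPos (x y : V → ℝ) : Prop where
  inj : Function.Injective x
  off : ∀ p q r : V, p ≠ q → r ≠ p → r ≠ q → y r ≠ ln x y p q (x r)

variable {x y : V → ℝ}

lemma ln_left (p q : V) : ln x y p q (x p) = y p := by
  unfold ln; ring

lemma ln_right (h : GenPos x y) {p q : V} (hpq : p ≠ q) : ln x y p q (x q) = y q := by
  unfold ln slp
  have : x q - x p ≠ 0 := sub_ne_zero.2 fun h' => hpq (h.inj h').symm
  field_simp
  ring

/-- a nonzero affine function has a strict sign on one of the two sides. -/
lemma affine_side (α β c : ℝ) (h : α ≠ 0 ∨ β ≠ 0) :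
    (∀ t < c, 0 < α * t + β) ∨ (∀ t < c, α * t + β < 0) ∨ (∀ t > c, 0 < α * t + β) ∨
      (∀ t > c, α * t + β < 0) := by
  rcases lt_trichotomy (α * c + β) 0 with h1 | h1 | h1
  · rcases le_or_gt 0 α with h2 | h2
    · right; left
      intro t ht
      nlinarith
    · right; right; right
      intro t ht
      nlinarith
  · rcases lt_trichotomy α 0 with h2 | h2 | h2
    · left; intro t ht; nlinarith
    · exfalso
      subst h2
      simp at h1
      rcases h with h | h
      · exact h rfl
      · exact h h1
    · right; left; intro t ht; nlinarith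
  · rcases le_or_gt 0 α with h2 | h2
    · right; right; left
      intro t ht
      nlinarith
    · left
      intro t ht
      nlinarith

/-- number of points of `A` strictly below the line `pq`. -/
noncomputable def bel (x y : V → ℝ) (A : Finset V) (p q : V) : ℕ :=
  (A.filter fun z => y z < ln x y p q (x z)).card

lemma bel_lt {A : Finset V} {p q r : V} (hr : r ∈ A) (h : ln x y p q (x r) ≤ y r) :
    bel x y A p q < A.card := by
  unfold bel
  apply card_lt_card
  rw [Finset.ssubset_iff_of_subset (filter_subset _ _)]
  exact ⟨r, hr, fun h' => absurd (mem_filter.1 h').2 (not_lt.2 h)⟩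

lemma bel_mono_lt {A : Finset V} {p q p' q' r : V} (hr : r ∈ A)
    (hr' : ln x y p' q' (x r) = y r)
    (h : ∀ z ∈ A, ln x y p' q' (x z) < ln x y p q (x z)) :
    bel x y A p' q' < bel x y A p q := by
  unfold bel
  apply card_lt_card
  rw [Finset.ssubset_iff_of_subset]
  · refine ⟨r, mem_filter.2 ⟨hr, ?_⟩, ?_⟩
    · have := h r hr
      rwa [hr'] at this
    · intro h'
      have := (mem_filter.1 h').2
      rw [hr'] at this
      exact lt_irrefl _ this
  · intro z hz
    rw [mem_filter] at hz ⊢
    exact ⟨hz.1, hz.2.trans (h z hz.1)⟩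

/-- injectivity of the count map -/
lemma grid_inj (hg : GenPos x y) {A B : Finset V} {c : ℝ} (hA : ∀ z ∈ A, x z < c)
    (hB : ∀ z ∈ B, c < x z) {p q p' q' : V} (hp : p ∈ A) (hq : q ∈ B) (hp' : p' ∈ A) (hq' : q' ∈ B)
    (h1 : bel x y A p q = bel x y A p' q') (h2 : bel x y B p q = bel x y B p' q') :
    p = p' ∧ q = q' := by
  have hpq : p ≠ q := by
    rintro rfl
    exact absurd (hA p hp) (not_lt.2 (hB p hq).le)
  have hpq' : p' ≠ q' := by
    rintro rfl
    exact absurd (hA p' hp') (not_lt.2 (hB p' hq').le)
  set α := slp x y p q - slp x y p' q' with hα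
  set β := (y p - slp x y p q * x p) - (y p' - slp x y p' q' * x p') with hβ
  have hdiff : ∀ t, ln x y p q t - ln x y p' q' t = α * t + β := by
    intro t; simp only [ln, hα, hβ]; ring
  by_cases hz : α ≠ 0 ∨ β ≠ 0
  · exfalso
    rcases affine_side α β c hz with h | h | h | h
    · have := bel_mono_lt (x := x) (y := y) (A := A) (p := p) (q := q) (p' := p') (q' := q') hp'
        (ln_left p' q') (fun z hz => by have := h _ (hA z hz); have := hdiff (x z); linarith)
      omega
    · have := bel_mono_lt (x := x) (y := y) (A := A) (p := p') (q := q') (p' := p) (q' := q) hp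
        (ln_left p q) (fun z hz => by have := h _ (hA z hz); have := hdiff (x z); linarith)
      omega
    · have := bel_mono_lt (x := x) (y := y) (A := B) (p := p) (q := q) (p' := p') (q' := q') hq'
        (ln_right hg hpq') (fun z hz => by have := h _ (hB z hz); have := hdiff (x z); linarith)
      omega
    · have := bel_mono_lt (x := x) (y := y) (A := B) (p := p') (q := q') (p' := p) (q' := q) hq
        (ln_right hg hpq) (fun z hz => by have := h _ (hB z hz); have := hdiff (x z); linarith)
      omega
  · push Not at hz
    have hsame : ∀ t, ln x y p q t = ln x y p' q' t := by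
      intro t
      have := hdiff t
      rw [hz.1, hz.2] at this
      linarith
    constructor
    · by_contra hne
      have hpq'' : p ≠ q' := by
        rintro rfl
        exact absurd (hA p hp) (not_lt.2 (hB p hq').le)
      exact hg.off p' q' p hpq' hne hpq'' (by rw [← hsame, ln_left])
    · by_contra hne
      have hqp'' : q ≠ p' := by
        rintro rfl
        exact absurd (hA q hp') (not_lt.2 (hB q hq).le)
      exact hg.off p' q' q hpq' hqp'' hne (by rw [← hsame, ln_right hg hpq])

/-- surjectivity of the count map -/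
lemma grid_surj (hg : GenPos x y) {A B : Finset V} {c : ℝ} (hA : ∀ z ∈ A, x z < c)
    (hB : ∀ z ∈ B, c < x z) {a b : ℕ} (ha : a < A.card) (hb : b < B.card) :
    ∃ p ∈ A, ∃ q ∈ B, bel x y A p q = a ∧ bel x y B p q = b := by
  set f : V × V → ℕ × ℕ := fun r => (bel x y A r.1 r.2, bel x y B r.1 r.2) with hf
  have hinj : Set.InjOn f (A ×ˢ B : Finset (V × V)) := by
    rintro ⟨p, q⟩ h ⟨p', q'⟩ h' heq
    simp only [coe_product, Set.mem_prod, mem_coe] at h h'
    simp only [hf, Prod.mk.injEq] at heq
    obtain ⟨e1, e2⟩ := grid_inj hg hA hB h.1 h.2 h'.1 h'.2 heq.1 heq.2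
    rw [e1, e2]
  have hcard : ((A ×ˢ B).image f).card = A.card * B.card := by
    rw [card_image_of_injOn hinj, card_product]
  have hsub : (A ×ˢ B).image f ⊆ range A.card ×ˢ range B.card := by
    intro r hr
    rw [mem_image] at hr
    obtain ⟨⟨p, q⟩, hpq, rfl⟩ := hr
    rw [mem_product] at hpq
    have hne : p ≠ q := by
      rintro rfl
      exact absurd (hA p hpq.1) (not_lt.2 (hB p hpq.2).le)
    rw [mem_product, mem_range, mem_range]
    exact ⟨bel_lt hpq.1 (ln_left p q).le, bel_lt hpq.2 (ln_right hg hne).le⟩
  have heq : (A ×ˢ B).image f = range A.card ×ˢ range B.card := by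
    apply eq_of_subset_of_card_le hsub
    rw [hcard, card_product, card_range, card_range]
  have hmem : (a, b) ∈ (A ×ˢ B).image f := by
    rw [heq, mem_product, mem_range, mem_range]; exact ⟨ha, hb⟩
  rw [mem_image] at hmem
  obtain ⟨⟨p, q⟩, hpq, h⟩ := hmem
  rw [mem_product] at hpq
  simp only [hf, Prod.mk.injEq] at h
  exact ⟨p, hpq.1, q, hpq.2, h.1, h.2⟩

variable [Fintype V]

/-- perturbation -/
lemma perturb (hg : GenPos x y) {p q : V} (hpq : p ≠ q) (s s' : ℝ) (hs : s ≠ 0) (hs' : s' ≠ 0) :
    ∃ m b : ℝ, (∀ z, z ≠ p → z ≠ q → (y z < m * x z + b ↔ y z < ln x y p q (x z)) ∧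
        y z ≠ m * x z + b) ∧ (y p < m * x p + b ↔ 0 < s) ∧ (y p ≠ m * x p + b) ∧
        (y q < m * x q + b ↔ 0 < s') ∧ (y q ≠ m * x q + b) := by
  have hxx : x q - x p ≠ 0 := sub_ne_zero.2 fun h' => hpq (hg.inj h').symm
  -- `h t = μ t + ν` with `h (x p) = s`, `h (x q) = s'`
  set μ := (s' - s) / (x q - x p) with hμ
  set ν := s - μ * x p with hν
  have hhp : μ * x p + ν = s := by rw [hν]; ring
  have hhq : μ * x q + ν = s' := by
    have : μ * (x q - x p) = s' - s := by rw [hμ]; field_simp
    rw [hν]; linarith
  have key : ∀ z, z ≠ p → z ≠ q → ∀ᶠ ε in 𝓝[>] (0:ℝ),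
      (y z < ln x y p q (x z) + ε * (μ * x z + ν) ↔ y z < ln x y p q (x z)) ∧
        y z ≠ ln x y p q (x z) + ε * (μ * x z + ν) := by
    intro z hzp hzq
    have hcont : Tendsto (fun ε : ℝ => ln x y p q (x z) + ε * (μ * x z + ν)) (𝓝[>] 0)
        (𝓝 (ln x y p q (x z) + 0 * (μ * x z + ν))) := by
      apply tendsto_nhdsWithin_of_tendsto_nhds
      exact (continuous_const.add (continuous_id.mul continuous_const)).tendsto 0
    rw [zero_mul, add_zero] at hcont
    rcases lt_or_gt_of_ne (hg.off p q z hpq hzp hzq) with h | h
    · filter_upwards [hcont.eventually_const_lt h] with ε hε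
      exact ⟨⟨fun _ => h, fun _ => hε⟩, hε.ne⟩
    · filter_upwards [hcont.eventually_lt_const h] with ε hε
      exact ⟨⟨fun h' => absurd (h'.trans hε) (lt_irrefl _), fun h' => absurd (h'.trans h) (lt_irrefl _)⟩,
        hε.ne'⟩
  have key2 : ∀ᶠ ε in 𝓝[>] (0:ℝ), ∀ z, z ≠ p → z ≠ q →
      (y z < ln x y p q (x z) + ε * (μ * x z + ν) ↔ y z < ln x y p q (x z)) ∧
        y z ≠ ln x y p q (x z) + ε * (μ * x z + ν) := by
    rw [eventually_all]
    intro z
    by_cases hzp : z = p
    · exact Eventually.of_forall fun _ h => absurd hzp h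
    by_cases hzq : z = q
    · exact Eventually.of_forall fun _ _ h => absurd hzq h
    filter_upwards [key z hzp hzq] with ε hε _ _
    exact hε
  obtain ⟨ε, hε, hpos⟩ := (key2.and self_mem_nhdsWithin).exists
  have hpos : 0 < ε := hpos
  refine ⟨slp x y p q + ε * μ, y p - slp x y p q * x p + ε * ν, ?_, ?_, ?_, ?_, ?_⟩
  · intro z hzp hzq
    have h1 := hε z hzp hzq
    have h2 : (slp x y p q + ε * μ) * x z + (y p - slp x y p q * x p + ε * ν) =
        ln x y p q (x z) + ε * (μ * x z + ν) := by unfold ln; ring
    rw [h2]; exact h1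
  · have h2 : (slp x y p q + ε * μ) * x p + (y p - slp x y p q * x p + ε * ν) =
        y p + ε * s := by rw [← hhp]; ring
    rw [h2]
    constructor
    · intro h; by_contra hcon; push Not at hcon; nlinarith
    · intro h; have := mul_pos hpos h; linarith
  · have h2 : (slp x y p q + ε * μ) * x p + (y p - slp x y p q * x p + ε * ν) =
        y p + ε * s := by rw [← hhp]; ring
    rw [h2]
    intro h
    have : ε * s = 0 := by linarith
    rcases mul_eq_zero.1 this with h | h
    · exact hpos.ne' h
    · exact hs h
  · have h2 : (slp x y p q + ε * μ) * x q + (y p - slp x y p q * x p + ε * ν) =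
        y q + ε * s' := by
      rw [← hhq]
      have := ln_right hg hpq
      unfold ln at this
      linear_combination this
    rw [h2]
    constructor
    · intro h; by_contra hcon; push Not at hcon; nlinarith
    · intro h; have := mul_pos hpos h; linarith
  · have h2 : (slp x y p q + ε * μ) * x q + (y p - slp x y p q * x p + ε * ν) =
        y q + ε * s' := by
      rw [← hhq]
      have := ln_right hg hpq
      unfold ln at this
      linear_combination this
    rw [h2]
    intro h
    have : ε * s' = 0 := by linarith
    rcases mul_eq_zero.1 this with h | h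
    · exact hpos.ne' h
    · exact hs' h

/-- bipartitions cut out by a non-vertical line avoiding the points (points strictly below). -/
def Below (x y : V → ℝ) (S : Finset V) : Prop :=
  ∃ m b : ℝ, (∀ z, z ∈ S ↔ y z < m * x z + b) ∧ ∀ z, y z ≠ m * x z + b

/-- **Grid lemma.** -/
theorem grid (hg : GenPos x y) {A B : Finset V} {c : ℝ} (hA : ∀ z ∈ A, x z < c)
    (hB : ∀ z ∈ B, c < x z) (hA0 : A.Nonempty) (hB0 : B.Nonempty) {a b : ℕ}
    (ha : a ≤ A.card) (hb : b ≤ B.card) :
    ∃ S : Finset V, Below x y S ∧ (A ∩ S).card = a ∧ (B ∩ S).card = b := by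
  classical
  have hA1 := hA0.card_pos
  have hB1 := hB0.card_pos
  obtain ⟨p, hp, q, hq, h1, h2⟩ := grid_surj hg hA hB (a := min a (A.card - 1))
    (b := min b (B.card - 1)) (by omega) (by omega)
  have hpq : p ≠ q := by
    rintro rfl
    exact absurd (hA p hp) (not_lt.2 (hB p hq).le)
  have hpB : p ∉ B := fun h => absurd (hA p hp) (not_lt.2 (hB p h).le)
  have hqA : q ∉ A := fun h => absurd (hA q h) (not_lt.2 (hB q hq).le)
  obtain ⟨m, t, hz, hp1, hp2, hq1, hq2⟩ := perturb hg hpq (if a = A.card then 1 else -1)
    (if b = B.card then 1 else -1) (by split_ifs <;> norm_num) (by split_ifs <;> norm_num)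
  refine ⟨univ.filter fun z => y z < m * x z + t, ⟨m, t, by simp, ?_⟩, ?_, ?_⟩
  · intro z
    by_cases h : z = p
    · rw [h]; exact hp2
    by_cases h' : z = q
    · rw [h']; exact hq2
    exact (hz z h h').2
  · by_cases hc : a = A.card
    · rw [if_pos hc] at hp1
      have hA' : A ∩ univ.filter (fun z => y z < m * x z + t) =
          insert p (A.filter fun z => y z < ln x y p q (x z)) := by
        ext z
        rw [mem_inter, mem_filter, mem_insert, mem_filter]
        constructor
        · rintro ⟨hzA, -, h⟩
          by_cases h' : z = p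
          · left; exact h'
          · right
            refine ⟨hzA, ((hz z h' (fun e => hqA (e ▸ hzA))).1).1 h⟩
        · rintro (rfl | ⟨hzA, h⟩)
          · exact ⟨hp, mem_univ _, hp1.2 one_pos⟩
          · refine ⟨hzA, mem_univ _, ?_⟩
            have hzp : z ≠ p := by
              rintro rfl
              rw [ln_left] at h; exact lt_irrefl _ h
            exact ((hz z hzp (fun e => hqA (e ▸ hzA))).1).2 h
      rw [hA', card_insert_of_notMem]
      · unfold bel at h1; omega
      · intro h
        rw [mem_filter, ln_left] at h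
        exact lt_irrefl _ h.2
    · rw [if_neg hc] at hp1
      have hA' : A ∩ univ.filter (fun z => y z < m * x z + t) =
          (A.filter fun z => y z < ln x y p q (x z)) := by
        ext z
        rw [mem_inter, mem_filter, mem_filter]
        constructor
        · rintro ⟨hzA, -, h⟩
          have hzp : z ≠ p := by
            rintro rfl
            have := hp1.1 h
            norm_num at this
          exact ⟨hzA, ((hz z hzp (fun e => hqA (e ▸ hzA))).1).1 h⟩
        · rintro ⟨hzA, h⟩
          refine ⟨hzA, mem_univ _, ?_⟩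
          have hzp : z ≠ p := by
            rintro rfl
            rw [ln_left] at h; exact lt_irrefl _ h
          exact ((hz z hzp (fun e => hqA (e ▸ hzA))).1).2 h
      rw [hA']
      unfold bel at h1; omega
  · by_cases hc : b = B.card
    · rw [if_pos hc] at hq1
      have hB' : B ∩ univ.filter (fun z => y z < m * x z + t) =
          insert q (B.filter fun z => y z < ln x y p q (x z)) := by
        ext z
        rw [mem_inter, mem_filter, mem_insert, mem_filter]
        constructor
        · rintro ⟨hzB, -, h⟩
          by_cases h' : z = q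
          · left; exact h'
          · right
            refine ⟨hzB, ((hz z (fun e => hpB (e ▸ hzB)) h').1).1 h⟩
        · rintro (rfl | ⟨hzB, h⟩)
          · exact ⟨hq, mem_univ _, hq1.2 one_pos⟩
          · refine ⟨hzB, mem_univ _, ?_⟩
            have hzq : z ≠ q := by
              rintro rfl
              rw [ln_right hg hpq] at h; exact lt_irrefl _ h
            exact ((hz z (fun e => hpB (e ▸ hzB)) hzq).1).2 h
      rw [hB', card_insert_of_notMem]
      · unfold bel at h2; omega
      · intro h
        rw [mem_filter, ln_right hg hpq] at h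
        exact lt_irrefl _ h.2
    · rw [if_neg hc] at hq1
      have hB' : B ∩ univ.filter (fun z => y z < m * x z + t) =
          (B.filter fun z => y z < ln x y p q (x z)) := by
        ext z
        rw [mem_inter, mem_filter, mem_filter]
        constructor
        · rintro ⟨hzB, -, h⟩
          have hzq : z ≠ q := by
            rintro rfl
            have := hq1.1 h
            norm_num at this
          exact ⟨hzB, ((hz z (fun e => hpB (e ▸ hzB)) hzq).1).1 h⟩
        · rintro ⟨hzB, h⟩
          refine ⟨hzB, mem_univ _, ?_⟩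
          have hzq : z ≠ q := by
            rintro rfl
            rw [ln_right hg hpq] at h; exact lt_irrefl _ h
          exact ((hz z (fun e => hpB (e ▸ hzB)) hzq).1).2 h
      rw [hB']
      unfold bel at h2; omega

end Pool.Agent.Helper46.Peel
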