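import Pool.Agent.Helper46.Peel.Grid

/-!
Rotating an (almost) halving line.
-/
namespace Pool.Agent.Helper46.Peel

open Finset Filter Topology

variable {V : Type*} [DecidableEq V] [Fintype V] {x y : V → ℝ}

/-- height over direction `m` -/
def hgt (x y : V → ℝ) (m : ℝ) (z : V) : ℝ := y z - m * x z

/-- `S` is an initial segment for the heights at slope `m`. -/
def Ini (x y : V → ℝ) (m : ℝ) (S : Finset V) : Prop :=
  ∀ z ∈ S, ∀ w ∉ S, hgt x y m z ≤ hgt x y m w

lemma hgt_cont (z : V) (m : ℝ) : Tendsto (fun m' => hgt x y m' z) (𝓝 m) (𝓝 (hgt x y m z)) := by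
  unfold hgt
  exact (continuous_const.sub (continuous_id.mul continuous_const)).tendsto m

/-- no three points have equal height. -/
lemma hgt_three (hg : GenPos x y) {m : ℝ} {p q r : V} (hpq : p ≠ q) (hrp : r ≠ p) (hrq : r ≠ q)
    (h1 : hgt x y m p = hgt x y m q) (h2 : hgt x y m r = hgt x y m p) : False := by
  have hxx : x q - x p ≠ 0 := sub_ne_zero.2 fun h' => hpq (hg.inj h').symm
  have hm : slp x y p q = m := by
    unfold slp
    rw [div_eq_iff hxx]
    unfold hgt at h1
    linarith
  apply hg.off p q r hpq hrp hrq
  unfold ln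
  rw [hm]
  unfold hgt at h2
  linarith

lemma below_of_strict {m : ℝ} {S : Finset V}
    (h : ∀ z ∈ S, ∀ w ∉ S, hgt x y m z < hgt x y m w) : Below x y S := by
  -- choose intercept between
  rcases S.eq_empty_or_nonempty with rfl | hne
  · rcases (univ : Finset V).eq_empty_or_nonempty with he | hne'
    · refine ⟨0, 0, ?_, ?_⟩
      · intro z; have := mem_univ z; rw [he] at this; exact absurd this (notMem_empty _)
      · intro z; have := mem_univ z; rw [he] at this; exact absurd this (notMem_empty _)
    · obtain ⟨z0, -, hz0⟩ := exists_min_image univ (fun z => hgt x y m z) hne'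
      refine ⟨m, hgt x y m z0 - 1, ?_, ?_⟩
      · intro z
        have := hz0 z (mem_univ _)
        unfold hgt at *
        constructor
        · intro h; exact absurd h (notMem_empty _)
        · intro h; exfalso; linarith
      · intro z
        have := hz0 z (mem_univ _)
        unfold hgt at *
        intro h; linarith
  · obtain ⟨z1, hz1, hz1'⟩ := exists_max_image S (fun z => hgt x y m z) hne
    rcases (Sᶜ).eq_empty_or_nonempty with he | hne'
    · refine ⟨m, hgt x y m z1 + 1, ?_, ?_⟩
      · intro z
        have hz : z ∈ S := by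
          by_contra hz
          have : z ∈ Sᶜ := mem_compl.2 hz
          rw [he] at this; exact notMem_empty _ this
        have := hz1' z hz
        unfold hgt at *
        constructor
        · intro _; linarith
        · intro _; exact hz
      · intro z
        have hz : z ∈ S := by
          by_contra hz
          have : z ∈ Sᶜ := mem_compl.2 hz
          rw [he] at this; exact notMem_empty _ this
        have := hz1' z hz
        unfold hgt at *
        intro h; linarith
    · obtain ⟨z2, hz2, hz2'⟩ := exists_min_image Sᶜ (fun z => hgt x y m z) hne'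
      have hlt := h z1 hz1 z2 (mem_compl.1 hz2)
      refine ⟨m, (hgt x y m z1 + hgt x y m z2) / 2, ?_, ?_⟩
      · intro z
        constructor
        · intro hz
          have := hz1' z hz
          unfold hgt at *; linarith
        · intro hz
          by_contra hzS
          have := hz2' z (mem_compl.2 hzS)
          unfold hgt at *; linarith
      · intro z hz
        by_cases hzS : z ∈ S
        · have := hz1' z hzS
          unfold hgt at *; linarith
        · have := hz2' z (mem_compl.2 hzS)
          unfold hgt at *; linarith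

/-- every initial segment is cut out by a line. -/
lemma below_of_ini (hg : GenPos x y) {m : ℝ} {S : Finset V} (h : Ini x y m S) : Below x y S := by
  by_cases hstrict : ∀ z ∈ S, ∀ w ∉ S, hgt x y m z < hgt x y m w
  · exact below_of_strict hstrict
  push Not at hstrict
  obtain ⟨u, hu, v, hv, huv⟩ := hstrict
  have heq : hgt x y m u = hgt x y m v := le_antisymm (h u hu v hv) huv
  have hne : u ≠ v := fun e => hv (e ▸ hu)
  have hx : x u ≠ x v := fun e => hne (hg.inj e)
  -- perturb the slope
  have hsgn : ∃ s : ℝ, s ≠ 0 ∧ 0 < s * (x u - x v) := by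
    rcases lt_or_gt_of_ne hx with h' | h'
    · exact ⟨-1, by norm_num, by linarith⟩
    · exact ⟨1, by norm_num, by linarith⟩
  obtain ⟨s, hs0, hs⟩ := hsgn
  have hcont : ∀ z : V, Tendsto (fun ε : ℝ => hgt x y (m + ε * s) z) (𝓝[>] 0) (𝓝 (hgt x y m z)) := by
    intro z
    have : Tendsto (fun ε : ℝ => hgt x y (m + ε * s) z) (𝓝 0) (𝓝 (hgt x y (m + 0 * s) z)) := by
      unfold hgt
      exact (continuous_const.sub ((continuous_const.add (continuous_id.mul continuous_const)).mul
        continuous_const)).tendsto 0
    rw [zero_mul, add_zero] at this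
    exact tendsto_nhdsWithin_of_tendsto_nhds this
  have key : ∀ᶠ ε in 𝓝[>] (0:ℝ), ∀ z w : V, z ∈ S → w ∉ S →
      hgt x y (m + ε * s) z < hgt x y (m + ε * s) w := by
    rw [eventually_all]; intro z
    rw [eventually_all]; intro w
    by_cases hz : z ∈ S
    swap
    · exact Eventually.of_forall fun _ h => absurd h hz
    by_cases hw : w ∈ S
    · exact Eventually.of_forall fun _ _ h => absurd hw h
    by_cases hzw : hgt x y m z < hgt x y m w
    · filter_upwards [(hcont z).eventually_lt (hcont w) hzw] with ε hε _ _
      exact hε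
    · have hzw' : hgt x y m z = hgt x y m w := le_antisymm (h z hz w hw) (not_lt.1 hzw)
      have hvz : hgt x y m z ≤ hgt x y m v := h z hz v hv
      have huw : hgt x y m u ≤ hgt x y m w := h u hu w hw
      have e1 : hgt x y m z = hgt x y m u := by linarith
      have hzu : z = u := by
        by_contra hzu
        exact hgt_three hg hne hzu (fun e => hv (e ▸ hz)) heq e1
      have hwv : w = v := by
        by_contra hwv
        have hwu : w ≠ u := fun e => hw (e ▸ hu)
        exact hgt_three hg hne hwu hwv heq (by linarith)
      subst hzu hwv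
      filter_upwards [self_mem_nhdsWithin] with ε hε _ _
      have hε : 0 < ε := hε
      have := mul_pos hε hs
      unfold hgt at heq ⊢
      nlinarith
  obtain ⟨ε, hε⟩ := key.exists
  exact below_of_strict fun z hz w hw => hε z w hz hw

/-- initial segments near `m` are initial segments at `m`. -/
lemma ini_near (m : ℝ) : ∀ᶠ m' in 𝓝 m, ∀ S : Finset V, Ini x y m' S → Ini x y m S := by
  have key : ∀ᶠ m' in 𝓝 m, ∀ z w : V, hgt x y m w < hgt x y m z → hgt x y m' w < hgt x y m' z := by
    rw [eventually_all]; intro z
    rw [eventually_all]; intro w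
    by_cases h : hgt x y m w < hgt x y m z
    · filter_upwards [(hgt_cont w m).eventually_lt (hgt_cont z m) h] with m' h' _
      exact h'
    · exact Eventually.of_forall fun _ h' => absurd h' h
  filter_upwards [key] with m' hm' S hS z hz w hw
  by_contra hcon
  push Not at hcon
  exact absurd (hS z hz w hw) (not_le.2 (hm' z w hcon))

/-- initial segments of every size exist. -/
lemma exists_ini (m : ℝ) (h : ℕ) (hh : h ≤ Fintype.card V) :
    ∃ S : Finset V, Ini x y m S ∧ S.card = h := by
  induction h with
  | zero => exact ⟨∅, by intro z hz; exact absurd hz (notMem_empty _), rfl⟩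
  | succ h ih =>
    obtain ⟨S, hS, hc⟩ := ih (by omega)
    have hne : (Sᶜ).Nonempty := by
      rw [← card_pos, card_compl]; omega
    obtain ⟨u, hu, hu'⟩ := exists_min_image Sᶜ (fun z => hgt x y m z) hne
    refine ⟨insert u S, ?_, by rw [card_insert_of_notMem (mem_compl.1 hu), hc]⟩
    intro z hz w hw
    rw [mem_insert, not_or] at hw
    rw [mem_insert] at hz
    rcases hz with rfl | hz
    · exact hu' w (mem_compl.2 hw.2)
    · exact hS z hz w hw.2

/-- almost halving bipartitions -/
def Nr (x y : V → ℝ) (h : ℕ) (S : Finset V) : Prop :=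
  Below x y S ∧ (S.card = h ∨ S.card = h + 1)

def Stp (x y : V → ℝ) (h : ℕ) (S S' : Finset V) : Prop :=
  Nr x y h S ∧ Nr x y h S' ∧ (symmDiff S S').card ≤ 1

def Conn (x y : V → ℝ) (h : ℕ) : Finset V → Finset V → Prop := Relation.ReflTransGen (Stp x y h)

lemma Stp.symm {h : ℕ} {S S' : Finset V} (hs : Stp x y h S S') : Stp x y h S' S :=
  ⟨hs.2.1, hs.1, by rw [symmDiff_comm]; exact hs.2.2⟩

lemma Conn.symm {h : ℕ} {S S' : Finset V} (hs : Conn x y h S S') : Conn x y h S' S := by
  induction hs with
  | refl => exact Relation.ReflTransGen.refl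
  | tail _ hbc ih => exact Relation.ReflTransGen.head hbc.symm ih

/-- two initial segments of the same size at the same slope are connected. -/
lemma conn_ini (hg : GenPos x y) {m : ℝ} {h : ℕ} {S S' : Finset V} (hS : Ini x y m S)
    (hS' : Ini x y m S') (hc : S.card = h) (hc' : S'.card = h) : Conn x y h S S' := by
  rcases (S \ S').eq_empty_or_nonempty with he | ⟨u, hu⟩
  · have : S = S' := by
      apply eq_of_subset_of_card_le (sdiff_eq_empty_iff_subset.1 he)
      omega
    rw [this]; exact Relation.ReflTransGen.refl
  · have hcard : (S' \ S).card = (S \ S').card := by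
      have h1 := card_sdiff_add_card_inter S S'
      have h2 := card_sdiff_add_card_inter S' S
      rw [inter_comm] at h2
      omega
    have hne : (S' \ S).Nonempty := by
      rw [← card_pos, hcard, card_pos]; exact ⟨u, hu⟩
    obtain ⟨v, hv⟩ := hne
    rw [Finset.mem_sdiff] at hu hv
    have huv : hgt x y m u = hgt x y m v :=
      le_antisymm (hS u hu.1 v hv.2) (hS' v hv.1 u hu.2)
    have hne : u ≠ v := fun e => hv.2 (e ▸ hu.1)
    have hU : S \ S' = {u} := by
      rw [eq_singleton_iff_unique_mem]
      refine ⟨Finset.mem_sdiff.2 hu, fun w hw => ?_⟩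
      rw [Finset.mem_sdiff] at hw
      by_contra hwu
      have : hgt x y m w = hgt x y m v := le_antisymm (hS w hw.1 v hv.2) (hS' v hv.1 w hw.2)
      exact hgt_three hg hne hwu (fun e => hv.2 (e ▸ hw.1)) huv (this.trans huv.symm)
    have hV : S' \ S = {v} := by
      have : (S' \ S).card = 1 := by rw [hcard, hU, card_singleton]
      obtain ⟨w, hw⟩ := card_eq_one.1 this
      have : v ∈ S' \ S := Finset.mem_sdiff.2 hv
      rw [hw, mem_singleton] at this
      rw [hw, this]
    -- the intermediate set
    have hins : insert v S = insert u S' := by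
      ext w
      rw [mem_insert, mem_insert]
      constructor
      · rintro (rfl | hw)
        · exact Or.inr hv.1
        · by_cases h' : w ∈ S'
          · exact Or.inr h'
          · have : w ∈ S \ S' := Finset.mem_sdiff.2 ⟨hw, h'⟩
            rw [hU, mem_singleton] at this
            exact Or.inl this
      · rintro (rfl | hw)
        · exact Or.inr hu.1
        · by_cases h' : w ∈ S
          · exact Or.inr h'
          · have : w ∈ S' \ S := Finset.mem_sdiff.2 ⟨hw, h'⟩
            rw [hV, mem_singleton] at this
            exact Or.inl this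
    have hIni : Ini x y m (insert v S) := by
      intro z hz w hw
      have hw2 : w ∉ insert u S' := hins ▸ hw
      rw [mem_insert, not_or] at hw hw2
      rw [mem_insert] at hz
      rcases hz with rfl | hz
      · exact hS' z hv.1 w hw2.2
      · exact hS z hz w hw.2
    have hB := below_of_ini hg hIni
    have hNI : Nr x y h (insert v S) := ⟨hB, Or.inr (by rw [card_insert_of_notMem hv.2, hc])⟩
    have hNS : Nr x y h S := ⟨below_of_ini hg hS, Or.inl hc⟩
    have hNS' : Nr x y h S' := ⟨below_of_ini hg hS', Or.inl hc'⟩
    have s1 : Stp x y h S (insert v S) := by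
      refine ⟨hNS, hNI, ?_⟩
      have : symmDiff S (insert v S) ⊆ {v} := by
        intro w hw
        rw [mem_symmDiff, mem_insert] at hw
        rw [mem_singleton]
        tauto
      exact (card_le_card this).trans (card_singleton v).le
    have s2 : Stp x y h (insert v S) S' := by
      refine ⟨hNI, hNS', ?_⟩
      rw [hins]
      have : symmDiff (insert u S') S' ⊆ {u} := by
        intro w hw
        rw [mem_symmDiff, mem_insert] at hw
        rw [mem_singleton]
        tauto
      exact (card_le_card this).trans (card_singleton u).le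
    exact (Relation.ReflTransGen.single s1).tail s2

/-- all initial segments of size `h` (over all slopes) are connected. -/
theorem conn_all (hg : GenPos x y) {h : ℕ} (hh : h ≤ Fintype.card V) {m m' : ℝ} {S S' : Finset V}
    (hS : Ini x y m S) (hS' : Ini x y m' S') (hc : S.card = h) (hc' : S'.card = h) :
    Conn x y h S S' := by
  classical
  choose s hs1 hs2 using fun m : ℝ => exists_ini (x := x) (y := y) m h hh
  set A : Set ℝ := {t | Conn x y h (s m) (s t)} with hA
  have hloc : ∀ t, ∀ᶠ t' in 𝓝 t, Conn x y h (s t) (s t') := by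
    intro t
    filter_upwards [ini_near (x := x) (y := y) t] with t' ht'
    exact conn_ini hg (hs1 t) (ht' _ (hs1 t')) (hs2 t) (hs2 t')
  have hopen : IsOpen A := by
    rw [isOpen_iff_mem_nhds]
    intro t ht
    filter_upwards [hloc t] with t' ht'
    exact Relation.ReflTransGen.trans ht ht'
  have hclosed : IsClosed A := by
    rw [← isOpen_compl_iff, isOpen_iff_mem_nhds]
    intro t ht
    filter_upwards [hloc t] with t' ht' hcon
    exact ht (Relation.ReflTransGen.trans hcon ht'.symm)
  have huniv : A = Set.univ := IsClopen.eq_univ ⟨hclosed, hopen⟩ ⟨m, Relation.ReflTransGen.refl⟩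
  have h1 : Conn x y h (s m) (s m') := by
    have : m' ∈ A := huniv ▸ Set.mem_univ m'
    exact this
  have h2 := conn_ini hg hS (hs1 m) hc (hs2 m)
  have h3 := conn_ini hg (hs1 m') hS' (hs2 m') hc'
  exact (h2.trans h1).trans h3

/-- discrete intermediate value along a chain -/
lemma chain_ivt {h : ℕ} {S0 S1 : Finset V} (hc : Conn x y h S0 S1) (hN : Nr x y h S0)
    (f : Finset V → ℕ) (hf : ∀ S S' : Finset V, (symmDiff S S').card ≤ 1 → f S' ≤ f S + 1)
    {a : ℕ} (h0 : f S0 ≤ a) (h1 : a ≤ f S1) : ∃ S, Nr x y h S ∧ f S = a := by
  induction hc with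
  | refl => exact ⟨S0, hN, le_antisymm h0 h1⟩
  | tail hab hbc ih =>
    rename_i b c
    by_cases hb : a ≤ f b
    · exact ih hb
    · have := hf b c hbc.2.2
      exact ⟨c, hbc.2.1, by omega⟩

/-- for very negative slopes, left sets are initial segments -/
lemma ini_left {S : Finset V} {c : ℝ} (h1 : ∀ z ∈ S, x z < c) (h2 : ∀ z ∉ S, c < x z) :
    ∃ m, Ini x y m S := by
  have key : ∀ᶠ m in atBot, ∀ z w : V, z ∈ S → w ∉ S → hgt x y m z ≤ hgt x y m w := by
    rw [eventually_all]; intro z
    rw [eventually_all]; intro w
    by_cases hz : z ∈ S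
    swap
    · exact Eventually.of_forall fun _ h => absurd h hz
    by_cases hw : w ∈ S
    · exact Eventually.of_forall fun _ _ h => absurd hw h
    have hlt : x z < x w := (h1 z hz).trans (h2 w hw)
    have : Tendsto (fun m : ℝ => m * (x w - x z)) atBot atBot :=
      tendsto_id.atBot_mul_const (by linarith)
    filter_upwards [this.eventually_le_atBot (y w - y z)] with m hm _ _
    unfold hgt; nlinarith
  obtain ⟨m, hm⟩ := key.exists
  exact ⟨m, fun z hz w hw => hm z w hz hw⟩

lemma ini_right {S : Finset V} {c : ℝ} (h1 : ∀ z ∈ S, c < x z) (h2 : ∀ z ∉ S, x z < c) :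
    ∃ m, Ini x y m S := by
  have key : ∀ᶠ m in atTop, ∀ z w : V, z ∈ S → w ∉ S → hgt x y m z ≤ hgt x y m w := by
    rw [eventually_all]; intro z
    rw [eventually_all]; intro w
    by_cases hz : z ∈ S
    swap
    · exact Eventually.of_forall fun _ h => absurd h hz
    by_cases hw : w ∈ S
    · exact Eventually.of_forall fun _ _ h => absurd hw h
    have hlt : x w < x z := (h2 w hw).trans (h1 z hz)
    have : Tendsto (fun m : ℝ => m * (x z - x w)) atTop atTop :=
      tendsto_id.atTop_mul_const (by linarith)
    filter_upwards [this.eventually_ge_atTop (y z - y w)] with m hm _ _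
    unfold hgt; nlinarith
  obtain ⟨m, hm⟩ := key.exists
  exact ⟨m, fun z hz w hw => hm z w hz hw⟩

/-- **Rotation lemma.** `L` = points left of `c`, with `⌈n/2⌉` points. For every `X` and `a ≤ |X|`
there is an almost halving line such that exactly `a` points of `X` are flipped. -/
theorem rotate (hg : GenPos x y) {L : Finset V} {c : ℝ} (h1 : ∀ z ∈ L, x z < c)
    (h2 : ∀ z ∉ L, c < x z) {h : ℕ} (hR : (Lᶜ).card = h) (hL : L.card = h ∨ L.card = h + 1)
    (X : Finset V) {a : ℕ} (ha : a ≤ X.card) :
    ∃ S, Nr x y h S ∧ (X.filter fun v => (v ∈ L ↔ v ∈ S)).card = a := by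
  classical
  have hcardV : h ≤ Fintype.card V := by rw [← hR]; exact card_le_univ _
  obtain ⟨m1, hm1⟩ := ini_right (y := y) (S := Lᶜ) (c := c)
    (fun z hz => h2 z (mem_compl.1 hz)) (fun z hz => h1 z (by simpa using hz))
  obtain ⟨m2, hm2⟩ := ini_left (y := y) h1 h2
  have hNR : Nr x y h Lᶜ := ⟨below_of_ini hg hm1, Or.inl hR⟩
  have hNL : Nr x y h L := ⟨below_of_ini hg hm2, hL⟩
  have hconn : Conn x y h Lᶜ L := by
    rcases hL with hL | hL
    · exact conn_all hg hcardV hm1 hm2 hR hL
    · -- remove the top element of `L`
      have hne : L.Nonempty := by rw [← card_pos]; omega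
      obtain ⟨u, hu, hu'⟩ := exists_max_image L (fun z => hgt x y m2 z) hne
      have hI : Ini x y m2 (L.erase u) := by
        intro z hz w hw
        rw [mem_erase] at hz
        rw [mem_erase, not_and_or, not_not] at hw
        rcases hw with rfl | hw
        · exact hu' z hz.2
        · exact hm2 z hz.2 w hw
      have hce : (L.erase u).card = h := by rw [card_erase_of_mem hu]; omega
      refine (conn_all hg hcardV hm1 hI hR hce).tail ⟨⟨below_of_ini hg hI, Or.inl hce⟩, hNL, ?_⟩
      have : symmDiff (L.erase u) L ⊆ {u} := by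
        intro w hw
        rw [mem_symmDiff, mem_erase] at hw
        rw [mem_singleton]
        tauto
      exact (card_le_card this).trans (card_singleton u).le
  apply chain_ivt hconn hNR (fun S => (X.filter fun v => (v ∈ L ↔ v ∈ S)).card)
  · intro S S' hSS'
    have : (X.filter fun v => (v ∈ L ↔ v ∈ S')) ⊆
        (X.filter fun v => (v ∈ L ↔ v ∈ S)) ∪ symmDiff S S' := by
      intro v hv
      rw [mem_union, mem_symmDiff]
      rw [mem_filter] at hv ⊢
      tauto
    exact (card_le_card this).trans ((card_union_le _ _).trans (by omega))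
  · have : (X.filter fun v => (v ∈ L ↔ v ∈ Lᶜ)) = ∅ := by
      apply filter_false_of_mem
      intro v _
      rw [mem_compl]; tauto
    rw [this, card_empty]; exact Nat.zero_le _
  · have : (X.filter fun v => (v ∈ L ↔ v ∈ L)) = X := by
      apply filter_true_of_mem
      intro v _; rfl
    rw [this]; exact ha

end Pool.Agent.Helper46.Peel
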