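import Pool.Agent.Helper46.Peel.Sums
import Pool.Agent.Helper46.Peel.Rot

/-!
From peelings to certificates.
-/
namespace Pool.Agent.Helper46.Peel

open Finset Classical

variable {V : Type*} [Fintype V]

/-! ### groups from a peeling -/

lemma gA_eq_of_lt {L : Finset V} {T : ℕ → Finset V} {M t : ℕ} (ht : t < M) :
    gA L T M t = remL L T t ∩ T t := by
  ext v
  simp only [gA, remL, mem_filter, mem_univ, true_and, mem_inter]
  constructor
  · rintro ⟨hv, hi⟩
    refine ⟨⟨hv, fun s hs => ?_⟩, ?_⟩
    · have := not_flip (L := L) (T := T) (M := M) (v := v) (t := s) (by omega)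
      tauto
    · have := idx_spec (L := L) (T := T) (M := M) (v := v) (by omega)
      rw [hi] at this
      exact this.1 hv
  · rintro ⟨⟨hv, h1⟩, h2⟩
    refine ⟨hv, idx_eq_of_flip (fun s hs => ?_) (fun _ => ?_) ht.le⟩
    · have := h1 s hs
      tauto
    · tauto

lemma gA_eq_last {L : Finset V} {T : ℕ → Finset V} {M : ℕ} : gA L T M M = remL L T M := by
  ext v
  simp only [gA, remL, mem_filter, mem_univ, true_and]
  constructor
  · rintro ⟨hv, hi⟩
    refine ⟨hv, fun s hs => ?_⟩
    have := not_flip (L := L) (T := T) (M := M) (v := v) (t := s) (by omega)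
    tauto
  · rintro ⟨hv, h1⟩
    refine ⟨hv, idx_eq_of_flip (fun s hs => ?_) (fun h => absurd h (lt_irrefl _)) le_rfl⟩
    have := h1 s hs
    tauto

lemma gB_eq_of_lt {L : Finset V} {T : ℕ → Finset V} {M t : ℕ} (ht : t < M) :
    gB L T M t = remR Lᶜ T t \ T t := by
  ext v
  simp only [gB, remR, mem_filter, mem_univ, true_and, mem_sdiff, mem_compl]
  constructor
  · rintro ⟨hv, hi⟩
    refine ⟨⟨hv, fun s hs => ?_⟩, ?_⟩
    · have := not_flip (L := L) (T := T) (M := M) (v := v) (t := s) (by omega)
      tauto
    · have := idx_spec (L := L) (T := T) (M := M) (v := v) (by omega)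
      rw [hi] at this
      tauto
  · rintro ⟨⟨hv, h1⟩, h2⟩
    refine ⟨hv, idx_eq_of_flip (fun s hs => ?_) (fun _ => ?_) ht.le⟩
    · have := h1 s hs
      tauto
    · tauto

lemma gB_eq_last {L : Finset V} {T : ℕ → Finset V} {M : ℕ} : gB L T M M = remR Lᶜ T M := by
  ext v
  simp only [gB, remR, mem_filter, mem_univ, true_and, mem_compl]
  constructor
  · rintro ⟨hv, hi⟩
    refine ⟨hv, fun s hs => ?_⟩
    have := not_flip (L := L) (T := T) (M := M) (v := v) (t := s) (by omega)
    tauto
  · rintro ⟨hv, h1⟩
    refine ⟨hv, idx_eq_of_flip (fun s hs => ?_) (fun h => absurd h (lt_irrefl _)) le_rfl⟩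
    have := h1 s hs
    tauto

/-- existence of a peeling with prescribed group sizes. -/
lemma exists_groups (𝒢 : Finset V → Prop) (L : Finset V)
    (hgrid : ∀ A ⊆ L, ∀ B ⊆ Lᶜ, ∀ a ≤ A.card, ∀ b ≤ B.card,
      ∃ S, 𝒢 S ∧ (A ∩ S).card = a ∧ (B ∩ S).card = b)
    (a b : ℕ → ℕ) (M : ℕ) (ha : ∑ t ∈ range (M + 1), a t = L.card)
    (hb : ∑ t ∈ range (M + 1), b t = (Lᶜ).card) :
    ∃ T : ℕ → Finset V, (∀ t < M, 𝒢 (T t)) ∧ (∀ t ≤ M, (gA L T M t).card = a t) ∧
      ∀ t ≤ M, (gB L T M t).card = b t := by
  rw [sum_range_succ] at ha hb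
  obtain ⟨T, h1, h2, h3, h4⟩ := exists_peel 𝒢 L Lᶜ hgrid a b M (by omega) (by omega)
  refine ⟨T, h1, ?_, ?_⟩
  · intro t ht
    rcases ht.lt_or_eq with h | rfl
    · rw [gA_eq_of_lt h]
      have := (h2 t h).1
      convert this using 2
    · rw [gA_eq_last]; omega
  · intro t ht
    rcases ht.lt_or_eq with h | rfl
    · rw [gB_eq_of_lt h]
      have := (h2 t h).2
      convert this using 2
    · rw [gB_eq_last]; omega

/-! ### rotation peeling -/

/-- group sizes for the rotation peeling. -/
lemma exists_rot (ℋ : Finset V → Prop) (L : Finset V)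
    (hrot : ∀ (X : Finset V), ∀ a ≤ X.card, ∃ S, ℋ S ∧ (X.filter fun v => (v ∈ L ↔ v ∈ S)).card = a)
    (g : ℕ → ℕ) (M : ℕ) (hg : ∑ t ∈ range (M + 1), g t = Fintype.card V) :
    ∃ T : ℕ → Finset V, (∀ t < M, ℋ (T t)) ∧
      ∀ t ≤ M, (gA L T M t).card + (gB L T M t).card = g t := by
  have key : ∀ m ≤ M, ∃ T : ℕ → Finset V, (∀ t < m, ℋ (T t)) ∧
      (∀ t < m, ((univ.filter fun v => ∀ s < t, ¬ (v ∈ L ↔ v ∈ T s)).filter
        fun v => (v ∈ L ↔ v ∈ T t)).card = g t) ∧
      (univ.filter fun v => ∀ s < m, ¬ (v ∈ L ↔ v ∈ T s)).card + ∑ t ∈ range m, g t =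
        Fintype.card V := by
    intro m
    induction m with
    | zero =>
      intro _
      refine ⟨fun _ => ∅, by simp, by simp, ?_⟩
      simp
    | succ m ih =>
      intro hm
      obtain ⟨T, h1, h2, h3⟩ := ih (by omega)
      set X := univ.filter fun v => ∀ s < m, ¬ (v ∈ L ↔ v ∈ T s) with hX
      have hle : g m ≤ X.card := by
        have h4 : ∑ t ∈ range (m + 1), g t ≤ ∑ t ∈ range (M + 1), g t :=
          sum_le_sum_of_subset (range_subset_range.2 (by omega))
        rw [sum_range_succ] at h4
        omega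
      obtain ⟨S, hS, hSc⟩ := hrot X (g m) hle
      have hupd : ∀ t ≤ m, (univ.filter fun v => ∀ s < t, ¬ (v ∈ L ↔ v ∈ Function.update T m S s)) =
          univ.filter fun v => ∀ s < t, ¬ (v ∈ L ↔ v ∈ T s) := by
        intro t ht
        apply filter_congr
        intro v _
        apply forall_congr'; intro s
        apply forall_congr'; intro hs
        rw [Function.update_of_ne (by omega)]
      refine ⟨Function.update T m S, ?_, ?_, ?_⟩
      · intro t ht
        rcases eq_or_ne t m with rfl | h
        · rw [Function.update_self]; exact hS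
        · rw [Function.update_of_ne h]; exact h1 t (by omega)
      · intro t ht
        rw [hupd t (by omega)]
        rcases eq_or_ne t m with rfl | h
        · rw [Function.update_self]; exact hSc
        · rw [Function.update_of_ne h]; exact h2 t (by omega)
      · have : (univ.filter fun v => ∀ s < m + 1, ¬ (v ∈ L ↔ v ∈ Function.update T m S s)) =
            X \ (X.filter fun v => (v ∈ L ↔ v ∈ S)) := by
          rw [hX, ← hupd m le_rfl]
          ext v
          simp only [mem_filter, mem_univ, true_and, mem_sdiff, Nat.lt_succ_iff, not_and]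
          constructor
          · intro h
            refine ⟨fun s hs => h s hs.le, fun _ => ?_⟩
            have := h m le_rfl
            rwa [Function.update_self] at this
          · rintro ⟨h, hS'⟩ s hs
            rcases hs.lt_or_eq with hs | rfl
            · exact h s hs
            · rw [Function.update_self]
              exact hS' h
        rw [this, card_sdiff_of_subset (filter_subset _ _), sum_range_succ]
        have := card_le_card (filter_subset (fun v => (v ∈ L ↔ v ∈ S)) X)
        omega
  obtain ⟨T, h1, h2, h3⟩ := key M le_rfl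
  refine ⟨T, h1, ?_⟩
  intro t ht
  have hdisj : Disjoint (gA L T M t) (gB L T M t) := by
    rw [disjoint_left]
    intro v hv hv'
    simp only [gA, gB, mem_filter, mem_univ, true_and] at hv hv'
    exact hv'.1 hv.1
  rw [← card_union_of_disjoint hdisj]
  have hun : gA L T M t ∪ gB L T M t = univ.filter fun v => idx L T M v = t := by
    ext v
    simp only [gA, gB, mem_union, mem_filter, mem_univ, true_and]
    tauto
  rw [hun]
  rcases ht.lt_or_eq with h | rfl
  · rw [← h2 t h]
    congr 1
    ext v
    simp only [mem_filter, mem_univ, true_and]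
    constructor
    · intro hi
      refine ⟨fun s hs => not_flip (M := M) (by omega), ?_⟩
      have := idx_spec (L := L) (T := T) (M := M) (v := v) (by omega)
      rwa [hi] at this
    · rintro ⟨g1, g2⟩
      exact idx_eq_of_flip g1 (fun _ => g2) ht
  · have h4 : (univ.filter fun v => idx L T t v = t) =
        univ.filter fun v => ∀ s < t, ¬ (v ∈ L ↔ v ∈ T s) := by
      ext v
      simp only [mem_filter, mem_univ, true_and]
      constructor
      · intro hi s hs
        exact not_flip (M := t) (by omega)
      · intro g1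
        exact idx_eq_of_flip g1 (fun h => absurd h (lt_irrefl _)) le_rfl
    rw [h4]
    rw [sum_range_succ] at hg
    omega

/-- number of ordered pairs not separated by `S` -/
def unc (n s : ℕ) : ℕ := s * (s - 1) + (n - s) * (n - s - 1)

lemma unc_card (S : Finset V) :
    ((univ : Finset (V × V)).filter fun q => q.1 ≠ q.2 ∧ ¬ sep S q).card =
      unc (Fintype.card V) S.card := by
  have h1 : ((univ : Finset (V × V)).filter fun q => q.1 ≠ q.2 ∧ ¬ sep S q) =
      S.offDiag ∪ (Sᶜ).offDiag := by
    ext ⟨u, v⟩
    simp only [mem_filter, mem_univ, true_and, mem_union, mem_offDiag, mem_compl, sep]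
    tauto
  have h2 : Disjoint S.offDiag (Sᶜ).offDiag := by
    rw [disjoint_left]
    rintro ⟨u, v⟩ h h'
    rw [mem_offDiag] at h h'
    exact (mem_compl.1 h'.1) h.1
  rw [h1, card_union_of_disjoint h2, offDiag_card, offDiag_card, card_compl]
  unfold unc
  have key : ∀ k : ℕ, k * k - k = k * (k - 1) := fun k => by rw [Nat.mul_sub, mul_one]
  rw [key, key]

/-- Master inequality for rotation certificates. -/
theorem master_rot (G : SimpleGraph V) {L : Finset V} {T : ℕ → Finset V} {M : ℕ} {g : ℕ → ℕ}
    (hg : ∀ t ≤ M, (gA L T M t).card + (gB L T M t).card = g t) :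
    M * ordE G + Fintype.card V * (Fintype.card V - 1) ≤
      2 * (cut G L + ∑ t ∈ range M, cut G (T t)) + (unc (Fintype.card V) L.card +
        ∑ t ∈ range M, unc (Fintype.card V) (T t).card) +
      2 * ∑ t ∈ range (M + 1), (g t) ^ 2 / 4 := by
  set E := (univ : Finset (V × V)).filter (fun q => G.Adj q.1 q.2) with hE
  set D := (univ : Finset (V × V)).filter (fun q => q.1 ≠ q.2) with hD
  have hord : ordE G = E.card := by
    unfold ordE; rw [hE]
  have hDc : D.card = Fintype.card V * (Fintype.card V - 1) := by
    have : D = (univ : Finset V).offDiag := by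
      ext ⟨u, v⟩
      simp [hD]
    rw [this, offDiag_card, card_univ, Nat.mul_sub, mul_one]
  have hED : E ⊆ D := by
    intro q hq
    simp only [hE, hD, mem_filter, mem_univ, true_and] at hq ⊢
    exact hq.ne
  -- never uncut pairs
  set Z := D.filter (fun q => sep L q ∧ ∀ t < M, sep (T t) q) with hZ
  have hZc : Z.card ≤ 2 * ∑ t ∈ range (M + 1), (g t) ^ 2 / 4 := by
    have hsub : Z ⊆ (range (M + 1)).biUnion fun t =>
        (gA L T M t ×ˢ gB L T M t) ∪ (gB L T M t ×ˢ gA L T M t) := by
      rintro ⟨u, v⟩ h
      simp only [hZ, hD, mem_filter, mem_univ, true_and] at h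
      obtain ⟨hne, hs, hT⟩ := h
      unfold sep at hs hT
      simp only at hs hT
      have hidx : idx L T M u = idx L T M v := by
        apply idx_eq_of_flip
        · intro s hs'
          have h1 := not_flip (L := L) (T := T) (M := M) (v := v) hs'
          have h2 := hT s (hs'.trans_le (idx_le v))
          tauto
        · intro hM'
          have h1 := idx_spec hM'
          have h2 := hT _ hM'
          tauto
        · exact idx_le v
      rw [mem_biUnion]
      refine ⟨idx L T M u, mem_range.2 (Nat.lt_succ_of_le (idx_le u)), ?_⟩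
      simp only [mem_union, mem_product, gA, gB, mem_filter, mem_univ, true_and]
      by_cases hu : u ∈ L
      · left
        exact ⟨⟨hu, trivial⟩, fun hv => hs (by tauto), hidx.symm⟩
      · right
        refine ⟨⟨hu, trivial⟩, ?_, hidx.symm⟩
        by_contra hv
        exact hs (by tauto)
    refine (card_le_card hsub).trans (card_biUnion_le.trans ?_)
    rw [mul_sum]
    apply sum_le_sum
    intro t ht
    rw [mem_range, Nat.lt_succ_iff] at ht
    refine (card_union_le _ _).trans ?_
    rw [card_product, card_product, ← hg t ht]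
    set α := (gA L T M t).card
    set β := (gB L T M t).card
    have : α * β ≤ (α + β) ^ 2 / 4 := by
      rw [Nat.le_div_iff_mul_le (by norm_num)]
      nlinarith [sq_nonneg ((α : ℤ) - β), four_mul_le_sq_add α β]
    rw [Nat.mul_comm β α]
    omega
  -- pointwise
  have hpt : ∀ q ∈ D, M * (if q ∈ E then 1 else 0) + 1 ≤
      ((if q ∈ E then (if sep L q then 1 else 0) + ∑ t ∈ range M, (if sep (T t) q then 1 else 0)
        else 0)) +
      ((if ¬ sep L q then 1 else 0) + ∑ t ∈ range M, (if ¬ sep (T t) q then 1 else 0)) +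
      (if (sep L q ∧ ∀ t < M, sep (T t) q) then 1 else 0) := by
    intro q _
    have hsum : ∑ t ∈ range M, (if sep (T t) q then 1 else 0) +
        ∑ t ∈ range M, (if ¬ sep (T t) q then 1 else 0) = M := by
      rw [← card_filter, ← card_filter, card_filter_add_card_filter_not, card_range]
    have hL : (if sep L q then 1 else 0) + (if ¬ sep L q then 1 else 0) = 1 := by
      split_ifs <;> simp_all
    by_cases hq : q ∈ E
    · rw [if_pos hq, if_pos hq]
      omega
    · rw [if_neg hq, if_neg hq]
      by_cases hz : sep L q ∧ ∀ t < M, sep (T t) q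
      · rw [if_pos hz]; omega
      · rw [if_neg hz]
        rw [not_and_or] at hz
        rcases hz with hz | hz
        · rw [if_pos hz]; omega
        · push Not at hz
          obtain ⟨t, htM, ht⟩ := hz
          have : 1 ≤ ∑ t ∈ range M, (if ¬ sep (T t) q then 1 else 0) := by
            calc 1 = (if ¬ sep (T t) q then 1 else 0) := by rw [if_pos ht]
              _ ≤ _ := Finset.single_le_sum (f := fun t => if ¬ sep (T t) q then 1 else 0)
                  (fun _ _ => Nat.zero_le _) (mem_range.2 htM)
          omega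
  have hsumm := sum_le_sum hpt
  rw [sum_add_distrib, sum_add_distrib, sum_add_distrib, ← mul_sum, sum_const, smul_eq_mul,
    mul_one] at hsumm
  have e1 : ∑ q ∈ D, (if q ∈ E then 1 else 0) = E.card := by
    rw [← card_filter]
    congr 1
    ext q
    rw [mem_filter]
    exact ⟨fun h => h.2, fun h => ⟨hED h, h⟩⟩
  have e2 : ∑ q ∈ D, (if q ∈ E then (if sep L q then 1 else 0) +
      ∑ t ∈ range M, (if sep (T t) q then 1 else 0) else 0) =
      2 * (cut G L + ∑ t ∈ range M, cut G (T t)) := by
    rw [← sum_filter]
    have : D.filter (fun q => q ∈ E) = E := by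
      ext q
      rw [mem_filter]
      exact ⟨fun h => h.2, fun h => ⟨hED h, h⟩⟩
    rw [this, sum_add_distrib, sum_comm (s := E) (t := range M), sum_sep G L]
    have h2 : ∑ t ∈ range M, ∑ q ∈ E, (if sep (T t) q then 1 else 0) =
        2 * ∑ t ∈ range M, cut G (T t) := by
      rw [mul_sum]
      exact sum_congr rfl fun t _ => sum_sep G (T t)
    rw [h2, mul_add]
  have e3 : ∑ q ∈ D, ((if ¬ sep L q then 1 else 0) +
      ∑ t ∈ range M, (if ¬ sep (T t) q then 1 else 0)) =
      unc (Fintype.card V) L.card + ∑ t ∈ range M, unc (Fintype.card V) (T t).card := by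
    rw [sum_add_distrib, sum_comm (s := D) (t := range M)]
    congr 1
    · rw [← card_filter, hD, filter_filter]; exact unc_card L
    · apply sum_congr rfl
      intro t _
      rw [← card_filter, hD, filter_filter]; exact unc_card (T t)
  have e4 : ∑ q ∈ D, (if (sep L q ∧ ∀ t < M, sep (T t) q) then 1 else 0) = Z.card := by
    rw [← card_filter]
  rw [e1, e2, e3, e4, hDc] at hsumm
  rw [hord]
  omega

end Pool.Agent.Helper46.Peel
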