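import Pool.Agent.Helper46.Peel.Count

/-!
The master counting inequality.
-/
namespace Pool.Agent.Helper46.Peel

open Finset Classical

variable {V : Type*} [Fintype V]

/-- index of the group of `v`: first `t < M` where `v` is 'flipped' relative to `L`, else `M`. -/
noncomputable def idx (L : Finset V) (T : ℕ → Finset V) (M : ℕ) (v : V) : ℕ :=
  Nat.find (p := fun t => M ≤ t ∨ (v ∈ L ↔ v ∈ T t)) ⟨M, Or.inl le_rfl⟩

variable {L : Finset V} {T : ℕ → Finset V} {M : ℕ}

lemma idx_le (v : V) : idx L T M v ≤ M := Nat.find_min' _ (Or.inl le_rfl)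

lemma idx_spec {v : V} (h : idx L T M v < M) : (v ∈ L ↔ v ∈ T (idx L T M v)) := by
  have := Nat.find_spec (p := fun t => M ≤ t ∨ (v ∈ L ↔ v ∈ T t)) ⟨M, Or.inl le_rfl⟩
  rcases this with h' | h'
  · exact absurd h (not_lt.2 h')
  · exact h'

lemma not_flip {v : V} {t : ℕ} (h : t < idx L T M v) : ¬ (v ∈ L ↔ v ∈ T t) := by
  have := Nat.find_min (p := fun t => M ≤ t ∨ (v ∈ L ↔ v ∈ T t)) ⟨M, Or.inl le_rfl⟩ h
  exact fun h' => this (Or.inr h')

lemma idx_eq_of_flip {v : V} {t : ℕ} (h1 : ∀ s < t, ¬ (v ∈ L ↔ v ∈ T s)) (h2 : t < M → (v ∈ L ↔ v ∈ T t))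
    (h3 : t ≤ M) : idx L T M v = t := by
  rcases h3.lt_or_eq with h | h
  · apply le_antisymm
    · exact Nat.find_min' _ (Or.inr (h2 h))
    · by_contra hlt
      push Not at hlt
      exact h1 _ hlt (idx_spec (hlt.trans h))
  · apply le_antisymm
    · rw [h]; exact idx_le v
    · by_contra hlt
      push Not at hlt
      exact h1 _ hlt (idx_spec (h ▸ hlt))

/-- same pattern implies same index -/
lemma idx_congr {v w : V} (h0 : v ∈ L ↔ w ∈ L) (h : ∀ s < M, (v ∈ T s ↔ w ∈ T s)) :
    idx L T M v = idx L T M w := by
  apply idx_eq_of_flip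
  · intro s hs
    have := not_flip hs
    rw [h0, h s (hs.trans_le (idx_le w))]
    exact this
  · intro hM
    rw [h0, h _ hM]
    exact idx_spec hM
  · exact idx_le w

variable (L T M) in
/-- `q.1` is near `q.2`. -/
def near (q : V × V) : Prop :=
  ((q.1 ∈ L ↔ q.2 ∈ L) ∧ idx L T M q.1 < idx L T M q.2 ∧
      ∀ s < M, s ≠ idx L T M q.1 → (q.1 ∈ T s ↔ q.2 ∈ T s)) ∨
    (¬ (q.1 ∈ L ↔ q.2 ∈ L) ∧ idx L T M q.1 = 0 ∧ 0 < idx L T M q.2 ∧
      ∀ s < M, (q.1 ∈ T s ↔ q.2 ∈ T s))

variable (L T M) in
/-- same group -/
def same (q : V × V) : Prop := (q.1 ∈ L ↔ q.2 ∈ L) ∧ idx L T M q.1 = idx L T M q.2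

/-- separation by `S` -/
def sep (S : Finset V) (q : V × V) : Prop := ¬ (q.1 ∈ S ↔ q.2 ∈ S)

lemma pointwise (hM : 1 ≤ M) (q : V × V) :
    2 ≤ (if sep L q then 1 else 0) + ∑ t ∈ range M, (if sep (T t) q then 1 else 0) +
      2 * (if same L T M q then 1 else 0) + (if near L T M q then 1 else 0) +
      (if near L T M q.swap then 1 else 0) := by
  obtain ⟨u, v⟩ := q
  have hcard : ∑ t ∈ range M, (if sep (T t) (u, v) then 1 else 0) =
      ((range M).filter fun t => sep (T t) (u, v)).card := by
    rw [card_filter]
  rw [hcard]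
  set F := (range M).filter fun t => sep (T t) (u, v) with hF
  by_cases hs : (u ∈ L ↔ v ∈ L)
  · rcases lt_trichotomy (idx L T M u) (idx L T M v) with hlt | heq | hgt
    · have hiM : idx L T M u < M := hlt.trans_le (idx_le v)
      have h1 := idx_spec hiM
      have h2 := not_flip hlt
      have hmem : idx L T M u ∈ F := by
        rw [hF, mem_filter, mem_range]
        refine ⟨hiM, ?_⟩
        unfold sep
        simp only
        rw [← h1]
        intro h
        exact h2 (by rw [← hs]; exact h)
      by_cases hn : near L T M (u, v)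
      · have : 1 ≤ F.card := card_pos.2 ⟨_, hmem⟩
        rw [if_pos hn]; omega
      · have : ∃ s < M, s ≠ idx L T M u ∧ ¬ (u ∈ T s ↔ v ∈ T s) := by
          by_contra hcon
          push Not at hcon
          apply hn
          left
          refine ⟨hs, hlt, ?_⟩
          intro s hsM hsne
          exact hcon s hsM hsne
        obtain ⟨s, hsM, hsne, hsep⟩ := this
        have hmem2 : s ∈ F := by
          rw [hF, mem_filter, mem_range]; exact ⟨hsM, hsep⟩
        have : ({s, idx L T M u} : Finset ℕ) ⊆ F := by
          intro x hx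
          rw [mem_insert, mem_singleton] at hx
          rcases hx with rfl | rfl <;> assumption
        have := card_le_card this
        rw [card_pair hsne] at this
        omega
    · have : same L T M (u, v) := ⟨hs, heq⟩
      rw [if_pos this]; omega
    · have hiM : idx L T M v < M := hgt.trans_le (idx_le u)
      have h1 := idx_spec hiM
      have h2 := not_flip hgt
      have hmem : idx L T M v ∈ F := by
        rw [hF, mem_filter, mem_range]
        refine ⟨hiM, ?_⟩
        unfold sep
        simp only
        rw [← h1]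
        intro h
        exact h2 (by rw [hs]; exact h.symm)
      by_cases hn : near L T M (v, u)
      · have : 1 ≤ F.card := card_pos.2 ⟨_, hmem⟩
        have hsw : (u, v).swap = (v, u) := rfl
        rw [hsw, if_pos hn]; omega
      · have : ∃ s < M, s ≠ idx L T M v ∧ ¬ (u ∈ T s ↔ v ∈ T s) := by
          by_contra hcon
          push Not at hcon
          apply hn
          left
          refine ⟨hs.symm, hgt, ?_⟩
          intro s hsM hsne
          exact (hcon s hsM hsne).symm
        obtain ⟨s, hsM, hsne, hsep⟩ := this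
        have hmem2 : s ∈ F := by
          rw [hF, mem_filter, mem_range]; exact ⟨hsM, hsep⟩
        have : ({s, idx L T M v} : Finset ℕ) ⊆ F := by
          intro x hx
          rw [mem_insert, mem_singleton] at hx
          rcases hx with rfl | rfl <;> assumption
        have := card_le_card this
        rw [card_pair hsne] at this
        omega
  · have hsL : sep L (u, v) := hs
    rw [if_pos hsL]
    by_cases hex : ∃ s < M, ¬ (u ∈ T s ↔ v ∈ T s)
    · obtain ⟨s, hsM, hsep⟩ := hex
      have hmem2 : s ∈ F := by
        rw [hF, mem_filter, mem_range]; exact ⟨hsM, hsep⟩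
      have : 1 ≤ F.card := card_pos.2 ⟨_, hmem2⟩
      omega
    · push Not at hex
      have h0 := hex 0 (by omega)
      by_cases hfu : (u ∈ L ↔ u ∈ T 0)
      · have hu0 : idx L T M u = 0 := by
          apply idx_eq_of_flip
          · intro s hs; exact absurd hs (Nat.not_lt_zero s)
          · intro _; exact hfu
          · exact Nat.zero_le _
        have hv0 : 0 < idx L T M v := by
          rw [Nat.pos_iff_ne_zero]
          intro hv
          have := idx_spec (L := L) (T := T) (M := M) (v := v) (by omega)
          rw [hv] at this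
          apply hs
          rw [hfu, h0]; exact this.symm
        have : near L T M (u, v) := Or.inr ⟨hs, hu0, hv0, hex⟩
        rw [if_pos this]; omega
      · have hfv : (v ∈ L ↔ v ∈ T 0) := by tauto
        have hv0 : idx L T M v = 0 := by
          apply idx_eq_of_flip
          · intro s hs; exact absurd hs (Nat.not_lt_zero s)
          · intro _; exact hfv
          · exact Nat.zero_le _
        have hu0 : 0 < idx L T M u := by
          rw [Nat.pos_iff_ne_zero]
          intro hu
          have := idx_spec (L := L) (T := T) (M := M) (v := u) (by omega)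
          rw [hu] at this
          exact hfu this
        have : near L T M (v, u) := Or.inr ⟨fun h => hs h.symm, hv0, hu0, fun s hs => (hex s hs).symm⟩
        have hsw : (u, v).swap = (v, u) := rfl
        rw [hsw, if_pos this]; omega

/-- pointwise inequality without doubling. -/
lemma pointwise_one (q : V × V) :
    1 ≤ (if sep L q then 1 else 0) + ∑ t ∈ range M, (if sep (T t) q then 1 else 0) +
      (if same L T M q then 1 else 0) := by
  obtain ⟨u, v⟩ := q
  by_cases hs : (u ∈ L ↔ v ∈ L)
  · by_cases heq : idx L T M u = idx L T M v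
    · have : same L T M (u, v) := ⟨hs, heq⟩
      rw [if_pos this]; omega
    · have : ∃ s < M, sep (T s) (u, v) := by
        by_contra hcon
        push Not at hcon
        apply heq
        apply idx_congr hs
        intro s hsM
        have := hcon s hsM
        unfold sep at this
        simpa using this
      obtain ⟨s, hsM, hsep⟩ := this
      have h1 : 1 ≤ ∑ t ∈ range M, (if sep (T t) (u, v) then 1 else 0) := by
        calc 1 = (if sep (T s) (u, v) then 1 else 0) := by rw [if_pos hsep]
          _ ≤ _ := Finset.single_le_sum (f := fun t => if sep (T t) (u, v) then 1 else 0)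
              (fun _ _ => Nat.zero_le _) (mem_range.2 hsM)
      omega
  · have hsL : sep L (u, v) := hs
    rw [if_pos hsL]; omega

variable (G : SimpleGraph V)

lemma sum_sep (S : Finset V) :
    ∑ q ∈ (univ : Finset (V × V)).filter (fun q => G.Adj q.1 q.2), (if sep S q then 1 else 0) =
      2 * cut G S := by
  rw [← card_filter, filter_filter]
  have h1 : ((univ : Finset (V × V)).filter fun q => G.Adj q.1 q.2 ∧ sep S q) =
      ((S ×ˢ Sᶜ).filter fun q => G.Adj q.1 q.2) ∪ ((Sᶜ ×ˢ S).filter fun q => G.Adj q.1 q.2) := by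
    ext ⟨u, v⟩
    simp only [mem_filter, mem_univ, true_and, mem_union, mem_product, mem_compl, sep]
    tauto
  have h2 : Disjoint ((S ×ˢ Sᶜ).filter fun q => G.Adj q.1 q.2)
      ((Sᶜ ×ˢ S).filter fun q => G.Adj q.1 q.2) := by
    rw [disjoint_left]
    rintro ⟨u, v⟩ h h'
    simp only [mem_filter, mem_product, mem_compl] at h h'
    exact h'.1.1 h.1.1
  have h3 : ((Sᶜ ×ˢ S).filter fun q => G.Adj q.1 q.2).card =
      ((S ×ˢ Sᶜ).filter fun q => G.Adj q.1 q.2).card := by
    apply card_bij (fun q _ => q.swap)
    · rintro ⟨u, v⟩ h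
      simp only [mem_filter, mem_product, mem_compl, Prod.swap] at h ⊢
      exact ⟨⟨h.1.2, h.1.1⟩, h.2.symm⟩
    · rintro ⟨u, v⟩ _ ⟨u', v'⟩ _ h
      exact Prod.swap_injective h
    · rintro ⟨u, v⟩ h
      refine ⟨(v, u), ?_, rfl⟩
      simp only [mem_filter, mem_product, mem_compl] at h ⊢
      exact ⟨⟨h.1.2, h.1.1⟩, h.2.symm⟩
  rw [h1, card_union_of_disjoint h2, h3]
  unfold cut
  have : ((S ×ˢ Sᶜ).filter fun q => G.Adj q.1 q.2).card =
    (@Finset.filter (V × V) (fun q => G.Adj q.1 q.2) (fun a ↦ Classical.propDecidable _)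
      (S ×ˢ Sᶜ)).card := by congr
  omega

end Pool.Agent.Helper46.Peel
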