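import Pool.Agent.Helper46.Peel.Master

/-!
The master counting inequality, summed.
-/
namespace Pool.Agent.Helper46.Peel

open Finset Classical

variable {V : Type*} [Fintype V] {L : Finset V} {T : ℕ → Finset V} {M : ℕ}

variable (L T M) in
/-- group `t` on the side of `L` -/
noncomputable def gA (t : ℕ) : Finset V := univ.filter fun v => v ∈ L ∧ idx L T M v = t

variable (L T M) in
/-- group `t` on the other side -/
noncomputable def gB (t : ℕ) : Finset V := univ.filter fun v => v ∉ L ∧ idx L T M v = t

lemma same_card {a b : ℕ → ℕ} (hA : ∀ t ≤ M, (gA L T M t).card = a t)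
    (hB : ∀ t ≤ M, (gB L T M t).card = b t) :
    ((univ : Finset (V × V)).filter fun q => q.1 ≠ q.2 ∧ same L T M q).card ≤
      ∑ t ∈ range (M + 1), (a t * (a t - 1) + b t * (b t - 1)) := by
  have hsub : ((univ : Finset (V × V)).filter fun q => q.1 ≠ q.2 ∧ same L T M q) ⊆
      (range (M + 1)).biUnion fun t => (gA L T M t).offDiag ∪ (gB L T M t).offDiag := by
    rintro ⟨u, v⟩ h
    simp only [mem_filter, mem_univ, true_and, same] at h
    obtain ⟨hne, hs, hi⟩ := h
    rw [mem_biUnion]
    refine ⟨idx L T M u, mem_range.2 (Nat.lt_succ_of_le (idx_le u)), ?_⟩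
    rw [mem_union, mem_offDiag, mem_offDiag]
    by_cases hu : u ∈ L
    · left
      refine ⟨?_, ?_, hne⟩
      · simp [gA, hu]
      · simp [gA, hs.1 hu, hi]
    · right
      refine ⟨?_, ?_, hne⟩
      · simp [gB, hu]
      · simp only [gB, mem_filter, mem_univ, true_and]
        exact ⟨fun h => hu (hs.2 h), hi.symm⟩
  refine (card_le_card hsub).trans (card_biUnion_le.trans ?_)
  apply sum_le_sum
  intro t ht
  rw [mem_range, Nat.lt_succ_iff] at ht
  refine (card_union_le _ _).trans ?_
  rw [offDiag_card, offDiag_card, hA t ht, hB t ht, Nat.mul_sub, Nat.mul_sub, mul_one, mul_one]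

/-- number of vertices near `u`. -/
lemma near_fiber {a b a' b' : ℕ → ℕ} (hA : ∀ t ≤ M, (gA L T M t).card = a t)
    (hB : ∀ t ≤ M, (gB L T M t).card = b t)
    (ha' : ∀ t < M, ∀ j, t < j → j ≤ M → a j ≤ a' t)
    (hb' : ∀ t < M, ∀ j, t < j → j ≤ M → b j ≤ b' t) (hM : 1 ≤ M) (u : V) :
    (univ.filter fun v => near L T M (u, v)).card ≤
      if u ∈ L then (if idx L T M u < M then a' (idx L T M u) else 0) +
          (if idx L T M u = 0 then b' 0 else 0)
      else (if idx L T M u < M then b' (idx L T M u) else 0) +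
          (if idx L T M u = 0 then a' 0 else 0) := by
  set i := idx L T M u with hi
  have hsplit : (univ.filter fun v => near L T M (u, v)) ⊆
      (univ.filter fun v => (u ∈ L ↔ v ∈ L) ∧ i < idx L T M v ∧
        ∀ s < M, s ≠ i → (u ∈ T s ↔ v ∈ T s)) ∪
      (univ.filter fun v => ¬ (u ∈ L ↔ v ∈ L) ∧ i = 0 ∧ 0 < idx L T M v ∧
        ∀ s < M, (u ∈ T s ↔ v ∈ T s)) := by
    intro v hv
    simp only [mem_filter, mem_univ, true_and, mem_union, near] at hv ⊢
    exact hv
  -- first part: all in one group
  have key1 : ∀ v w : V, (u ∈ L ↔ v ∈ L) → i < idx L T M v →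
      (∀ s < M, s ≠ i → (u ∈ T s ↔ v ∈ T s)) → (u ∈ L ↔ w ∈ L) → i < idx L T M w →
      (∀ s < M, s ≠ i → (u ∈ T s ↔ w ∈ T s)) → idx L T M v = idx L T M w := by
    intro v w h1 h2 h3 h4 h5 h6
    apply idx_congr (h1.symm.trans h4)
    intro s hs
    rcases eq_or_ne s i with rfl | hne
    · have hv := not_flip h2
      have hw := not_flip h5
      rw [← h1] at hv
      rw [← h4] at hw
      tauto
    · rw [← h3 s hs hne, h6 s hs hne]
  have key2 : ∀ v w : V, ¬ (u ∈ L ↔ v ∈ L) → (∀ s < M, (u ∈ T s ↔ v ∈ T s)) →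
      ¬ (u ∈ L ↔ w ∈ L) → (∀ s < M, (u ∈ T s ↔ w ∈ T s)) → idx L T M v = idx L T M w := by
    intro v w h1 h2 h3 h4
    apply idx_congr (by tauto)
    intro s hs
    rw [← h2 s hs, h4 s hs]
  have card1 : (univ.filter fun v => (u ∈ L ↔ v ∈ L) ∧ i < idx L T M v ∧
        ∀ s < M, s ≠ i → (u ∈ T s ↔ v ∈ T s)).card ≤
      if u ∈ L then (if i < M then a' i else 0) else (if i < M then b' i else 0) := by
    rcases (univ.filter fun v => (u ∈ L ↔ v ∈ L) ∧ i < idx L T M v ∧
        ∀ s < M, s ≠ i → (u ∈ T s ↔ v ∈ T s)).eq_empty_or_nonempty with he | ⟨v0, hv0⟩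
    · rw [he, card_empty]; exact Nat.zero_le _
    · simp only [mem_filter, mem_univ, true_and] at hv0
      obtain ⟨g1, g2, g3⟩ := hv0
      have hiM : i < M := g2.trans_le (idx_le v0)
      rw [if_pos hiM, if_pos hiM]
      split_ifs with hu
      · refine le_trans (card_le_card (t := gA L T M (idx L T M v0)) ?_)
          ((hA _ (idx_le v0)).trans_le (ha' i hiM _ g2 (idx_le v0)))
        intro v hv
        simp only [mem_filter, mem_univ, true_and] at hv
        simp only [gA, mem_filter, mem_univ, true_and]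
        exact ⟨hv.1.1 hu, (key1 v v0 hv.1 hv.2.1 hv.2.2 g1 g2 g3)⟩
      · refine le_trans (card_le_card (t := gB L T M (idx L T M v0)) ?_)
          ((hB _ (idx_le v0)).trans_le (hb' i hiM _ g2 (idx_le v0)))
        intro v hv
        simp only [mem_filter, mem_univ, true_and] at hv
        simp only [gB, mem_filter, mem_univ, true_and]
        exact ⟨fun h => hu (hv.1.2 h), (key1 v v0 hv.1 hv.2.1 hv.2.2 g1 g2 g3)⟩
  have card2 : (univ.filter fun v => ¬ (u ∈ L ↔ v ∈ L) ∧ i = 0 ∧ 0 < idx L T M v ∧
        ∀ s < M, (u ∈ T s ↔ v ∈ T s)).card ≤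
      if u ∈ L then (if i = 0 then b' 0 else 0) else (if i = 0 then a' 0 else 0) := by
    rcases (univ.filter fun v => ¬ (u ∈ L ↔ v ∈ L) ∧ i = 0 ∧ 0 < idx L T M v ∧
        ∀ s < M, (u ∈ T s ↔ v ∈ T s)).eq_empty_or_nonempty with he | ⟨v0, hv0⟩
    · rw [he, card_empty]; exact Nat.zero_le _
    · simp only [mem_filter, mem_univ, true_and] at hv0
      obtain ⟨g1, g0, g2, g3⟩ := hv0
      rw [if_pos g0, if_pos g0]
      split_ifs with hu
      · refine le_trans (card_le_card (t := gB L T M (idx L T M v0)) ?_)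
          ((hB _ (idx_le v0)).trans_le (hb' 0 hM _ g2 (idx_le v0)))
        intro v hv
        simp only [mem_filter, mem_univ, true_and] at hv
        simp only [gB, mem_filter, mem_univ, true_and]
        refine ⟨?_, (key2 v v0 hv.1 hv.2.2.2 g1 g3)⟩
        intro h; exact hv.1 (by tauto)
      · refine le_trans (card_le_card (t := gA L T M (idx L T M v0)) ?_)
          ((hA _ (idx_le v0)).trans_le (ha' 0 hM _ g2 (idx_le v0)))
        intro v hv
        simp only [mem_filter, mem_univ, true_and] at hv
        simp only [gA, mem_filter, mem_univ, true_and]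
        refine ⟨?_, (key2 v v0 hv.1 hv.2.2.2 g1 g3)⟩
        by_contra h; exact hv.1 (by tauto)
  refine (card_le_card hsplit).trans ((card_union_le _ _).trans ((Nat.add_le_add card1 card2).trans ?_))
  split_ifs <;> omega

lemma near_card {a b a' b' : ℕ → ℕ} (hA : ∀ t ≤ M, (gA L T M t).card = a t)
    (hB : ∀ t ≤ M, (gB L T M t).card = b t)
    (ha' : ∀ t < M, ∀ j, t < j → j ≤ M → a j ≤ a' t)
    (hb' : ∀ t < M, ∀ j, t < j → j ≤ M → b j ≤ b' t) (hM : 1 ≤ M) :
    ((univ : Finset (V × V)).filter fun q => near L T M q).card ≤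
      ∑ t ∈ range M, (a t * a' t + b t * b' t) + a 0 * b' 0 + b 0 * a' 0 := by
  have h1 : ((univ : Finset (V × V)).filter fun q => near L T M q).card =
      ∑ u : V, (univ.filter fun v => near L T M (u, v)).card := by
    rw [card_filter, ← univ_product_univ, sum_product]
    apply sum_congr rfl
    intro u _
    rw [card_filter]
  rw [h1]
  refine (sum_le_sum fun u _ => near_fiber hA hB ha' hb' hM u).trans ?_
  -- split over the two sides
  rw [← sum_filter_add_sum_filter_not (univ : Finset V) (fun u => u ∈ L)]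
  have e1 : ∑ u ∈ univ.filter (fun u => u ∈ L), (if u ∈ L then
        (if idx L T M u < M then a' (idx L T M u) else 0) + (if idx L T M u = 0 then b' 0 else 0)
      else (if idx L T M u < M then b' (idx L T M u) else 0) +
          (if idx L T M u = 0 then a' 0 else 0)) =
      ∑ t ∈ range (M + 1), a t * ((if t < M then a' t else 0) + (if t = 0 then b' 0 else 0)) := by
    rw [← sum_fiberwise_of_maps_to (s := univ.filter (fun u => u ∈ L)) (t := range (M + 1))
      (g := fun u => idx L T M u) (fun u _ => mem_range.2 (Nat.lt_succ_of_le (idx_le u)))]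
    apply sum_congr rfl
    intro t ht
    rw [mem_range, Nat.lt_succ_iff] at ht
    rw [filter_filter]
    have : ∀ u ∈ univ.filter (fun u => u ∈ L ∧ idx L T M u = t), (if u ∈ L then
        (if idx L T M u < M then a' (idx L T M u) else 0) + (if idx L T M u = 0 then b' 0 else 0)
      else (if idx L T M u < M then b' (idx L T M u) else 0) +
          (if idx L T M u = 0 then a' 0 else 0)) =
        ((if t < M then a' t else 0) + (if t = 0 then b' 0 else 0)) := by
      intro u hu
      simp only [mem_filter, mem_univ, true_and] at hu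
      rw [if_pos hu.1, hu.2]
    rw [sum_congr rfl this, sum_const, smul_eq_mul]
    congr 1
    exact hA t ht
  have e2 : ∑ u ∈ univ.filter (fun u => ¬ u ∈ L), (if u ∈ L then
        (if idx L T M u < M then a' (idx L T M u) else 0) + (if idx L T M u = 0 then b' 0 else 0)
      else (if idx L T M u < M then b' (idx L T M u) else 0) +
          (if idx L T M u = 0 then a' 0 else 0)) =
      ∑ t ∈ range (M + 1), b t * ((if t < M then b' t else 0) + (if t = 0 then a' 0 else 0)) := by
    rw [← sum_fiberwise_of_maps_to (s := univ.filter (fun u => ¬ u ∈ L)) (t := range (M + 1))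
      (g := fun u => idx L T M u) (fun u _ => mem_range.2 (Nat.lt_succ_of_le (idx_le u)))]
    apply sum_congr rfl
    intro t ht
    rw [mem_range, Nat.lt_succ_iff] at ht
    rw [filter_filter]
    have : ∀ u ∈ univ.filter (fun u => ¬ u ∈ L ∧ idx L T M u = t), (if u ∈ L then
        (if idx L T M u < M then a' (idx L T M u) else 0) + (if idx L T M u = 0 then b' 0 else 0)
      else (if idx L T M u < M then b' (idx L T M u) else 0) +
          (if idx L T M u = 0 then a' 0 else 0)) =
        ((if t < M then b' t else 0) + (if t = 0 then a' 0 else 0)) := by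
      intro u hu
      simp only [mem_filter, mem_univ, true_and] at hu
      rw [if_neg hu.1, hu.2]
    rw [sum_congr rfl this, sum_const, smul_eq_mul]
    congr 1
    exact hB t ht
  rw [e1, e2]
  have f1 : ∀ (c c' : ℕ → ℕ) (d : ℕ),
      ∑ t ∈ range (M + 1), c t * ((if t < M then c' t else 0) + (if t = 0 then d else 0)) =
        ∑ t ∈ range M, c t * c' t + c 0 * d := by
    intro c c' d
    simp only [mul_add]
    rw [sum_add_distrib]
    congr 1
    · rw [sum_range_succ, if_neg (lt_irrefl _), mul_zero, add_zero]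
      apply sum_congr rfl
      intro t ht
      rw [if_pos (mem_range.1 ht)]
    · rw [sum_eq_single 0]
      · simp
      · intro t _ ht; simp [ht]
      · intro h; exact absurd (mem_range.2 (Nat.succ_pos M)) h
  rw [f1, f1, sum_add_distrib]
  omega

variable (G : SimpleGraph V)

/-- Master inequality (half-integral certificates). -/
theorem master_two {a b a' b' : ℕ → ℕ} (hA : ∀ t ≤ M, (gA L T M t).card = a t)
    (hB : ∀ t ≤ M, (gB L T M t).card = b t)
    (ha' : ∀ t < M, ∀ j, t < j → j ≤ M → a j ≤ a' t)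
    (hb' : ∀ t < M, ∀ j, t < j → j ≤ M → b j ≤ b' t) (hM : 1 ≤ M) :
    ordE G ≤ cut G L + ∑ t ∈ range M, cut G (T t) +
      ∑ t ∈ range (M + 1), (a t * (a t - 1) + b t * (b t - 1)) +
      (∑ t ∈ range M, (a t * a' t + b t * b' t) + a 0 * b' 0 + b 0 * a' 0) := by
  set E := (univ : Finset (V × V)).filter (fun q => G.Adj q.1 q.2) with hE
  have hord : ordE G = E.card := by
    unfold ordE; rw [hE]
  have h1 : ∑ q ∈ E, 2 ≤ ∑ q ∈ E, ((if sep L q then 1 else 0) +
      ∑ t ∈ range M, (if sep (T t) q then 1 else 0) +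
      2 * (if same L T M q then 1 else 0) + (if near L T M q then 1 else 0) +
      (if near L T M q.swap then 1 else 0)) := sum_le_sum fun q _ => pointwise hM q
  rw [sum_const, smul_eq_mul, sum_add_distrib, sum_add_distrib, sum_add_distrib, sum_add_distrib,
    sum_comm (s := E) (t := range M), ← mul_sum, sum_sep] at h1
  have h2 : ∑ t ∈ range M, ∑ q ∈ E, (if sep (T t) q then 1 else 0) =
      2 * ∑ t ∈ range M, cut G (T t) := by
    rw [mul_sum]
    exact sum_congr rfl fun t _ => sum_sep G (T t)
  rw [h2] at h1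
  have h3 : ∑ q ∈ E, (if near L T M q.swap then 1 else 0) = ∑ q ∈ E, (if near L T M q then 1 else 0) := by
    apply sum_bij (fun q _ => q.swap)
    · intro q hq
      simp only [hE, mem_filter, mem_univ, true_and, Prod.fst_swap, Prod.snd_swap] at hq ⊢
      exact hq.symm
    · intro q _ q' _ h; exact Prod.swap_injective h
    · intro q hq
      refine ⟨q.swap, ?_, Prod.swap_swap q⟩
      simp only [hE, mem_filter, mem_univ, true_and, Prod.fst_swap, Prod.snd_swap] at hq ⊢
      exact hq.symm
    · intro q _; rfl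
  have h4 : ∑ q ∈ E, (if near L T M q then 1 else 0) ≤
      ∑ t ∈ range M, (a t * a' t + b t * b' t) + a 0 * b' 0 + b 0 * a' 0 := by
    rw [← card_filter]
    refine (card_le_card ?_).trans (near_card hA hB ha' hb' hM)
    exact filter_subset_filter _ (filter_subset _ _)
  have h5 : ∑ q ∈ E, (if same L T M q then 1 else 0) ≤
      ∑ t ∈ range (M + 1), (a t * (a t - 1) + b t * (b t - 1)) := by
    rw [← card_filter]
    refine (card_le_card ?_).trans (same_card hA hB)
    intro q hq
    simp only [hE, mem_filter, mem_univ, true_and] at hq ⊢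
    exact ⟨hq.1.ne, hq.2⟩
  rw [h3] at h1
  rw [hord]
  omega

/-- Master inequality (integral certificates). -/
theorem master_one {a b : ℕ → ℕ} (hA : ∀ t ≤ M, (gA L T M t).card = a t)
    (hB : ∀ t ≤ M, (gB L T M t).card = b t) :
    ordE G ≤ 2 * (cut G L + ∑ t ∈ range M, cut G (T t)) +
      ∑ t ∈ range (M + 1), (a t * (a t - 1) + b t * (b t - 1)) := by
  set E := (univ : Finset (V × V)).filter (fun q => G.Adj q.1 q.2) with hE
  have hord : ordE G = E.card := by
    unfold ordE; rw [hE]
  have h1 : ∑ q ∈ E, 1 ≤ ∑ q ∈ E, ((if sep L q then 1 else 0) +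
      ∑ t ∈ range M, (if sep (T t) q then 1 else 0) +
      (if same L T M q then 1 else 0)) := sum_le_sum fun q _ => pointwise_one q
  rw [sum_const, smul_eq_mul, sum_add_distrib, sum_add_distrib,
    sum_comm (s := E) (t := range M), sum_sep] at h1
  have h2 : ∑ t ∈ range M, ∑ q ∈ E, (if sep (T t) q then 1 else 0) =
      2 * ∑ t ∈ range M, cut G (T t) := by
    rw [mul_sum]
    exact sum_congr rfl fun t _ => sum_sep G (T t)
  rw [h2] at h1
  have h5 : ∑ q ∈ E, (if same L T M q then 1 else 0) ≤
      ∑ t ∈ range (M + 1), (a t * (a t - 1) + b t * (b t - 1)) := by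
    rw [← card_filter]
    refine (card_le_card ?_).trans (same_card hA hB)
    intro q hq
    simp only [hE, mem_filter, mem_univ, true_and] at hq ⊢
    exact ⟨hq.1.ne, hq.2⟩
  rw [hord]
  omega

end Pool.Agent.Helper46.Peel
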